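import Mathlib
import Pool.Agent.Helper3.E3.LDefs
import Pool.Agent.Helper3.ETF.Own2

/-!
# E-T (MP_12a1af_nt), phase 3: layouts given by lists of abstract regions
-/

open Finset

namespace Pool.Agent.E3

open Pool.Agent.ETS (Hash Zone zcons mem_zcons)
open Pool.Agent.ETP (LayN ConsSetN keyN digN eltN)

/-- the layout of a list of regions; the region `0` is trivial, the region `j + 1` is the entry
number `j` of the list -/
def ofL (K : ℕ) (l : List Rg) : LayN where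
  bot := fun i => if i = 0 then 0 else (l[i-1]?).elim K Rg.bot
  V := fun i => if i = 0 then {0} else (l[i-1]?).elim {0} Rg.V
  c := fun i z => if i = 0 then 0 else (l[i-1]?).elim 0 (fun r => r.c z)
  core := fun i z => if i = 0 then z else (l[i-1]?).elim z (fun r => r.core z)

/-- conditions for a list of regions to be a layout of scale `K` -/
structure IsL (K : ℕ) (l : List Rg) : Prop where
  len2 : 2 ≤ l.length
  first : ∀ r, l[0]? = some r → r.bot = 0
  next : ∀ j r r', l[j]? = some r → l[j+1]? = some r' → r.top = r'.bot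
  last : ∀ r, l[l.length-1]? = some r → r.top = K
  le : ∀ r ∈ l, r.bot ≤ r.top
  card : ∀ r ∈ l, r.V.card ^ 2 ≤ 2 ^ r.len
  inj : ∀ r ∈ l, ∀ v ∈ r.V, ∀ v' ∈ r.V, r.c v ≡ r.c v' [MOD 2 ^ r.len] → v = v'

lemma getElem?_of_chain2 : ∀ {l : List Rg} {u v : ℕ}, Chain u l v →
    (∀ r, l[0]? = some r → r.bot = u) ∧
    (∀ j r r', l[j]? = some r → l[j+1]? = some r' → r.top = r'.bot) ∧
    (∀ r, l[l.length - 1]? = some r → r.top = v) ∧ (∀ r ∈ l, r.bot ≤ r.top)
  | [], u, v, _ => by simp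
  | r :: rs, u, v, h => by
    obtain ⟨h1, h2, h3⟩ := h
    obtain ⟨i1, i2, i3, i4⟩ := getElem?_of_chain2 h3
    refine ⟨?_, ?_, ?_, ?_⟩
    · intro r' hr'
      simp only [List.getElem?_cons_zero, Option.some.injEq] at hr'
      rw [← hr']; exact h1
    · intro j r1 r2 hr1 hr2
      rcases Nat.eq_zero_or_pos j with rfl | hj
      · simp only [List.getElem?_cons_zero, Option.some.injEq, zero_add,
          List.getElem?_cons_succ] at hr1 hr2
        rw [← hr1]
        exact (i1 r2 hr2).symm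
      · obtain ⟨i, rfl⟩ : ∃ i, j = i + 1 := ⟨j - 1, by omega⟩
        simp only [List.getElem?_cons_succ] at hr1 hr2
        exact i2 i r1 r2 hr1 hr2
    · intro r' hr'
      rcases rs with _ | ⟨r1, rs⟩
      · have h4 : r.top = v := h3
        simp only [List.length_cons, List.length_nil, zero_add, Nat.sub_self,
          List.getElem?_cons_zero, Option.some.injEq] at hr'
        rw [← hr']; exact h4
      · apply i3 r'
        simp only [List.length_cons, Nat.add_sub_cancel] at hr' ⊢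
        rw [List.getElem?_cons_succ] at hr'
        exact hr'
    · intro r' hr'
      rcases List.mem_cons.mp hr' with rfl | hr'
      · exact h2
      · exact i4 r' hr'

section

variable {K : ℕ} {l : List Rg}

lemma ofL_bot_succ {j : ℕ} {r : Rg} (h : l[j]? = some r) : (ofL K l).bot (j+1) = r.bot := by
  simp [ofL, h]

lemma ofL_V_succ {j : ℕ} {r : Rg} (h : l[j]? = some r) : (ofL K l).V (j+1) = r.V := by
  simp [ofL, h]

lemma ofL_c_succ {j : ℕ} {r : Rg} (h : l[j]? = some r) (z : ℕ) :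
    (ofL K l).c (j+1) z = r.c z := by
  simp [ofL, h]

lemma ofL_core_succ {j : ℕ} {r : Rg} (h : l[j]? = some r) (z : ℕ) :
    (ofL K l).core (j+1) z = r.core z := by
  simp [ofL, h]

lemma ofL_bot_zero : (ofL K l).bot 0 = 0 := by simp [ofL]

lemma exists_rg {j : ℕ} (h : j < l.length) : ∃ r, l[j]? = some r ∧ r ∈ l :=
  ⟨l[j], List.getElem?_eq_getElem h, List.getElem_mem h⟩

lemma ofL_bot_one (H : IsL K l) : (ofL K l).bot 1 = 0 := by
  obtain ⟨r, hr, _⟩ := exists_rg (l := l) (j := 0) (by have := H.len2; omega)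
  rw [ofL_bot_succ hr, H.first r hr]

lemma ofL_bot_top (H : IsL K l) {j : ℕ} {r : Rg} (h : l[j]? = some r) :
    (ofL K l).bot (j+2) = r.top := by
  have hj : j < l.length := by
    rw [List.getElem?_eq_some_iff] at h
    exact h.1
  by_cases h1 : j + 1 < l.length
  · obtain ⟨r', hr', _⟩ := exists_rg h1
    rw [ofL_bot_succ hr', H.next j r r' h hr']
  · have h2 : j = l.length - 1 := by omega
    rw [h2] at h
    rw [H.last r h]
    have h3 : l[j+1]? = none := by
      rw [List.getElem?_eq_none_iff]; omega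
    simp [ofL, h3]

lemma ofL_len (H : IsL K l) {j : ℕ} {r : Rg} (h : l[j]? = some r) :
    (ofL K l).len (j+1) = r.len := by
  unfold LayN.len Rg.len
  rw [show j + 1 + 1 = j + 2 from rfl, ofL_bot_top H h, ofL_bot_succ h]

lemma ofL_len_zero (H : IsL K l) : (ofL K l).len 0 = 0 := by
  unfold LayN.len
  rw [ofL_bot_one H, ofL_bot_zero]

lemma ofL_mono (H : IsL K l) (i : ℕ) (hi : i < l.length + 1) :
    (ofL K l).bot i ≤ (ofL K l).bot (i+1) := by
  rcases Nat.eq_zero_or_pos i with rfl | h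
  · rw [ofL_bot_zero]; exact Nat.zero_le _
  · obtain ⟨j, rfl⟩ : ∃ j, i = j + 1 := ⟨i - 1, by omega⟩
    obtain ⟨r, hr, hm⟩ := exists_rg (l := l) (j := j) (by omega)
    rw [ofL_bot_succ hr, show j + 1 + 1 = j + 2 from rfl, ofL_bot_top H hr]
    exact H.le r hm

/-- the data of the region below the region number `j` of the list -/
lemma ofL_pred (H : IsL K l) {j : ℕ} {r0 : Rg} (h : (rg0 :: l)[j]? = some r0) :
    (ofL K l).bot j = r0.bot ∧ (ofL K l).V j = r0.V ∧ (∀ z, (ofL K l).c j z = r0.c z) ∧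
      (∀ z, (ofL K l).core j z = r0.core z) ∧ (ofL K l).len j = r0.len ∧
      (∀ v ∈ r0.V, ∀ v' ∈ r0.V, r0.c v ≡ r0.c v' [MOD 2 ^ r0.len] → v = v') := by
  rcases Nat.eq_zero_or_pos j with rfl | hj
  · simp only [List.getElem?_cons_zero, Option.some.injEq] at h
    subst h
    refine ⟨ofL_bot_zero, by simp [ofL, rg0], fun z => by simp [ofL, rg0],
      fun z => by simp [ofL, rg0], by rw [ofL_len_zero H]; rfl, ?_⟩
    intro v hv v' hv' _
    simp only [rg0, mem_singleton] at hv hv'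
    rw [hv, hv']
  · obtain ⟨i, rfl⟩ : ∃ i, j = i + 1 := ⟨j - 1, by omega⟩
    rw [List.getElem?_cons_succ] at h
    exact ⟨ofL_bot_succ h, ofL_V_succ h, fun z => ofL_c_succ h z, fun z => ofL_core_succ h z,
      ofL_len H h, H.inj r0 (List.mem_of_getElem? h)⟩

end

/-- the value of the digits below the top of `r1` -/
def sval (r0 r1 : Rg) (a κ₁ κ₂ : ℕ) (q : ℕ × ℕ) : ℕ :=
  a + 2 ^ r0.bot * ((r0.c q.1 + κ₁) % 2 ^ r0.len) + 2 ^ r1.bot * ((r1.c q.2 + κ₂) % 2 ^ r1.len)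

lemma sval_inj {r0 r1 : Rg} {a κ₁ κ₂ : ℕ} (hb : r1.bot = r0.bot + r0.len)
    (h0 : ∀ v ∈ r0.V, ∀ v' ∈ r0.V, r0.c v ≡ r0.c v' [MOD 2 ^ r0.len] → v = v')
    (h1 : ∀ v ∈ r1.V, ∀ v' ∈ r1.V, r1.c v ≡ r1.c v' [MOD 2 ^ r1.len] → v = v') {q q' : ℕ × ℕ}
    (hq0 : q.1 ∈ r0.V) (hq1 : q.2 ∈ r1.V) (hq0' : q'.1 ∈ r0.V) (hq1' : q'.2 ∈ r1.V)
    (h : sval r0 r1 a κ₁ κ₂ q = sval r0 r1 a κ₁ κ₂ q') : q = q' := by
  unfold sval at h
  set u := (r0.c q.1 + κ₁) % 2 ^ r0.len with hu
  set u' := (r0.c q'.1 + κ₁) % 2 ^ r0.len with hu'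
  set w := (r1.c q.2 + κ₂) % 2 ^ r1.len with hw
  set w' := (r1.c q'.2 + κ₂) % 2 ^ r1.len with hw'
  have hult : u < 2 ^ r0.len := Nat.mod_lt _ (by positivity)
  have hult' : u' < 2 ^ r0.len := Nat.mod_lt _ (by positivity)
  rw [hb, pow_add] at h
  have h3 : u + 2 ^ r0.len * w = u' + 2 ^ r0.len * w' := by
    have h4 : 2 ^ r0.bot * (u + 2 ^ r0.len * w) = 2 ^ r0.bot * (u' + 2 ^ r0.len * w') := by
      have e1 : 2 ^ r0.bot * (u + 2 ^ r0.len * w) =
        2 ^ r0.bot * u + 2 ^ r0.bot * 2 ^ r0.len * w := by ring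
      have e2 : 2 ^ r0.bot * (u' + 2 ^ r0.len * w') =
        2 ^ r0.bot * u' + 2 ^ r0.bot * 2 ^ r0.len * w' := by ring
      omega
    exact Nat.eq_of_mul_eq_mul_left (by positivity) h4
  have huu : u = u' := by
    have := congrArg (· % 2 ^ r0.len) h3
    simpa [Nat.add_mul_mod_self_left, Nat.mod_eq_of_lt hult, Nat.mod_eq_of_lt hult'] using this
  have hww : w = w' := by
    rw [huu] at h3
    have : 2 ^ r0.len * w = 2 ^ r0.len * w' := by omega
    exact Nat.eq_of_mul_eq_mul_left (by positivity) this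
  exact Prod.ext (h0 _ hq0 _ hq0' (Nat.ModEq.add_right_cancel' κ₁ huu))
    (h1 _ hq1 _ hq1' (Nat.ModEq.add_right_cancel' κ₂ hww))

open Classical in
/-- from zones to consistent sets -/
lemma card_ConsSetN_le2 {K K' : ℕ} {l l' : List Rg} (H : IsL K l) (H' : IsL K' l') {j j' : ℕ}
    {r0 r1 r0' r1' : Rg} (hr0 : (rg0 :: l)[j]? = some r0) (hr1 : l[j]? = some r1)
    (hr0' : (rg0 :: l')[j']? = some r0') (hr1' : l'[j']? = some r1') (B : ℕ)
    (hB : ∀ n Z Z', BlkZ r0 r1 Z → BlkZ r0' r1' Z' → (zcons K K' n Z Z').card ≤ B)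
    (n a κ₁ κ₂ a' κ₁' κ₂' co co' : ℕ) (ha : a < 2 ^ (ofL K l).bot j)
    (ha' : a' < 2 ^ (ofL K' l').bot j') :
    (ConsSetN (ofL K l) (ofL K' l') K K' (j+1) (j'+1) n a κ₁ κ₂ a' κ₁' κ₂' co
      co').card ≤ B := by
  obtain ⟨p1, p2, p3, p4, p5, p6⟩ := ofL_pred H hr0
  obtain ⟨p1', p2', p3', p4', p5', p6'⟩ := ofL_pred H' hr0'
  have hbot : r1.bot = r0.bot + r0.len := by
    have h1 := ofL_mono H j (by
      have h : j < l.length := by
        rw [List.getElem?_eq_some_iff] at hr1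
        exact hr1.1
      omega)
    have h2 : (ofL K l).len j = (ofL K l).bot (j+1) - (ofL K l).bot j := rfl
    rw [ofL_bot_succ hr1] at h1 h2
    rw [← p5, ← p1, h2]; omega
  have hbot' : r1'.bot = r0'.bot + r0'.len := by
    have h1 := ofL_mono H' j' (by
      have h : j' < l'.length := by
        rw [List.getElem?_eq_some_iff] at hr1'
        exact hr1'.1
      omega)
    have h2 : (ofL K' l').len j' = (ofL K' l').bot (j'+1) - (ofL K' l').bot j' := rfl
    rw [ofL_bot_succ hr1'] at h1 h2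
    rw [← p5', ← p1', h2]; omega
  refine le_trans (card_le_card_of_injOn
    (fun q => (sval r0 r1 a κ₁ κ₂ q.1, sval r0' r1' a' κ₁' κ₂' q.2)) ?_ ?_)
    (hB n (blkz r0 r1 a κ₁ κ₂ co) (blkz r0' r1' a' κ₁' κ₂' co')
      ⟨a, κ₁, κ₂, co, by rw [← p1]; exact ha, rfl⟩
      ⟨a', κ₁', κ₂', co', by rw [← p1']; exact ha', rfl⟩)
  · intro q hq
    have hq' := Finset.mem_coe.mp hq
    unfold ConsSetN at hq'
    rw [mem_filter, mem_product, mem_product, mem_product] at hq'
    simp only [Nat.add_sub_cancel] at hq'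
    obtain ⟨⟨⟨m1, m2⟩, ⟨m3, m4⟩⟩, c1, c2, hcons⟩ := hq'
    rw [p2] at m1
    rw [ofL_V_succ hr1] at m2
    rw [p2'] at m3
    rw [ofL_V_succ hr1'] at m4
    rw [p4] at c1
    rw [p4'] at c2
    apply Finset.mem_coe.mpr
    rw [mem_zcons]
    refine ⟨⟨?_, ?_⟩, ?_⟩
    · unfold blkz
      simp only
      rw [mem_image]
      exact ⟨q.1, by rw [mem_product, mem_filter]; exact ⟨⟨m1, c1⟩, m2⟩, rfl⟩
    · unfold blkz
      simp only
      rw [mem_image]
      exact ⟨q.2, by rw [mem_product, mem_filter]; exact ⟨⟨m3, c2⟩, m4⟩, rfl⟩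
    · obtain ⟨u, u', hu, hu', heq⟩ := hcons
      simp only [Nat.add_sub_cancel] at hu hu' heq
      rw [show j + 1 + 1 = j + 2 from rfl, ofL_bot_top H hr1] at hu heq
      rw [show j' + 1 + 1 = j' + 2 from rfl, ofL_bot_top H' hr1'] at hu' heq
      refine ⟨u, u', hu, hu', ?_⟩
      rw [p1, p1', p3, p3', p5, p5', ofL_bot_succ hr1, ofL_bot_succ hr1', ofL_c_succ hr1,
        ofL_c_succ hr1', ofL_len H hr1, ofL_len H' hr1'] at heq
      exact heq
  · intro q hq q' hq' h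
    have h1 := Finset.mem_coe.mp hq
    have h2 := Finset.mem_coe.mp hq'
    unfold ConsSetN at h1 h2
    rw [mem_filter, mem_product, mem_product, mem_product] at h1 h2
    simp only [Nat.add_sub_cancel] at h1 h2
    obtain ⟨⟨⟨m1, m2⟩, ⟨m3, m4⟩⟩, -⟩ := h1
    obtain ⟨⟨⟨k1, k2⟩, ⟨k3, k4⟩⟩, -⟩ := h2
    rw [p2] at m1 k1
    rw [ofL_V_succ hr1] at m2 k2
    rw [p2'] at m3 k3
    rw [ofL_V_succ hr1'] at m4 k4
    have e := Prod.mk.inj h
    exact Prod.ext (sval_inj hbot p6 (H.inj r1 (List.mem_of_getElem? hr1)) m1 m2 k1 k2 e.1)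
      (sval_inj hbot' p6' (H'.inj r1' (List.mem_of_getElem? hr1')) m3 m4 k3 k4 e.2)

end Pool.Agent.E3
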