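import Mathlib
import Pool.Agent.Helper3.E3.LLists
import Pool.Agent.Helper3.ETF.Bridge

/-!
# E-T (MP_12a1af_nt), phase 3: elements of `ofL` and the number `val`
-/

open Finset

namespace Pool.Agent.E3

open Pool.Agent.ETS (Hash)
open Pool.Agent.ETP (LayN keyN digN eltN keyfun bridge)

/-- the list key of region `j` -/
def keyL (l : List Rg) (z : ℕ → ℕ) (j : ℕ) : List ℕ :=
  if j = 0 then [] else
    (l[j-1]?).elim (z (j-1)) (fun r => r.core (z (j-1))) :: ((List.range (j-1)).map z).reverse

lemma val_eq_sum : ∀ (l : List Rg) (H : Hash) (z : ℕ → ℕ),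
    val l H ((List.range l.length).map z) = ∑ j ∈ range l.length,
      2 ^ (l[j]?).elim 0 Rg.bot * (((l[j]?).elim 0 (fun r => r.c (z j)) + H (keyL l z j)) %
        2 ^ (l[j]?).elim 0 Rg.len)
  | [], H, z => by simp [val]
  | r :: rs, H, z => by
    have ih := val_eq_sum rs (r.next H (z 0)) (fun i => z (i+1))
    have e1 : (List.range (r :: rs).length).map z =
        z 0 :: (List.range rs.length).map (fun i => z (i+1)) := by
      rw [List.length_cons, List.range_succ_eq_map, List.map_cons, List.map_map]
      rfl
    rw [e1, val, ih, List.length_cons, sum_range_succ']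
    have e2 : ∀ j, (r.next H (z 0)) (keyL rs (fun i => z (i+1)) j) = H (keyL (r :: rs) z (j+1)) := by
      intro j
      unfold Rg.next
      rcases Nat.eq_zero_or_pos j with rfl | hj
      · simp [keyL]
      · obtain ⟨i, rfl⟩ : ∃ i, j = i + 1 := ⟨j - 1, by omega⟩
        have h1 : keyL rs (fun i => z (i+1)) (i+1) ≠ [] := by simp [keyL]
        rw [if_neg h1]
        congr 1
        unfold keyL
        rw [if_neg (by omega), if_neg (by omega)]
        simp only [Nat.add_sub_cancel, List.cons_append, List.getElem?_cons_succ]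
        congr 1
        rw [List.range_succ_eq_map, List.map_cons, List.reverse_cons, List.map_map]
        rfl
    have e3 : keyL (r :: rs) z 0 = [] := by simp [keyL]
    rw [e3]
    simp only [List.getElem?_cons_succ, List.getElem?_cons_zero, Option.elim_some, e2]
    rw [add_comm]

lemma mem_Vs_map : ∀ (l : List Rg) (z : ℕ → ℕ),
    (∀ j r, l[j]? = some r → z j ∈ r.V) → (List.range l.length).map z ∈ Vs l
  | [], z, _ => by simp
  | r :: rs, z, h => by
    have e1 : (List.range (r :: rs).length).map z =
        z 0 :: (List.range rs.length).map (fun i => z (i+1)) := by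
      rw [List.length_cons, List.range_succ_eq_map, List.map_cons, List.map_map]
      rfl
    rw [e1, cons_mem_Vs]
    refine ⟨h 0 r rfl, mem_Vs_map rs _ (fun j r' hr' => h (j+1) r' ?_)⟩
    simpa using hr'

lemma length_keyL (l : List Rg) (z : ℕ → ℕ) (j : ℕ) : (keyL l z j).length = j := by
  unfold keyL
  split_ifs with h
  · simp [h]
  · simp; omega

lemma keyfun_keyL {K : ℕ} {l : List Rg} {z : ℕ → ℕ} (hz0 : z 0 = 0) {j : ℕ} :
    keyfun (keyL l (fun i => z (i+1)) j) = keyN (ofL K l) (j+1) z := by
  funext t
  unfold keyfun keyN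
  rw [length_keyL]
  rcases Nat.eq_zero_or_pos t with rfl | ht
  · rw [if_pos rfl]
    rcases Nat.eq_zero_or_pos j with rfl | hj
    · rw [if_neg (by omega), if_pos (by omega)]
      simp [ofL, hz0]
    · rw [if_pos (by omega), hz0]
  · rw [if_neg (by omega)]
    rcases Nat.lt_trichotomy t j with h | h | h
    · rw [if_pos (by omega), if_pos (by omega)]
      unfold keyL
      rw [if_neg (by omega)]
      obtain ⟨i, hi⟩ : ∃ i, j - t = i + 1 := ⟨j - t - 1, by omega⟩
      rw [hi, List.getElem?_cons_succ, List.getElem?_reverse (by simp; omega)]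
      simp only [List.length_map, List.length_range]
      rw [List.getElem?_map, List.getElem?_range (by omega)]
      simp only [Option.map_some]
      congr 2
      omega
    · subst h
      rw [if_pos (le_refl _), if_neg (by omega), if_pos rfl]
      unfold keyL
      rw [if_neg (by omega), Nat.sub_self, List.getElem?_cons_zero]
      simp only [ofL]
      rw [if_neg (by omega)]
      have e : t - 1 + 1 = t := by omega
      rw [e]
    · rw [if_neg (by omega), if_neg (by omega), if_neg (by omega)]

/-- the elements of `ofL` -/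
lemma eltN_eq_val {K : ℕ} {l : List Rg} (H : IsL K l)
    (h : ℕ → (ℕ → Option ℕ) → ℕ) {z : ℕ → ℕ} (hz0 : z 0 = 0) :
    eltN (ofL K l) (l.length + 1) K h z =
      2 ^ K + val l (bridge h) ((List.range l.length).map (fun i => z (i+1))) := by
  unfold eltN
  congr 1
  rw [val_eq_sum, sum_range_succ']
  have e0 : 2 ^ (ofL K l).bot 0 * digN (ofL K l) h z 0 = 0 := by
    unfold digN
    rw [ofL_len_zero H, pow_zero, Nat.mod_one, mul_zero]
  rw [e0, add_zero]
  refine Finset.sum_congr rfl (fun j hj => ?_)
  rw [mem_range] at hj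
  obtain ⟨r, hr, _⟩ := exists_rg hj
  rw [ofL_bot_succ hr]
  unfold digN
  rw [ofL_c_succ hr, ofL_len H hr, hr]
  simp only [Option.elim_some]
  have e1 : bridge h (keyL l (fun i => z (i+1)) j) = h (j+1) (keyN (ofL K l) (j+1) z) := by
    unfold bridge
    rw [length_keyL, keyfun_keyL hz0]
  rw [e1]

/-- the list key of a key -/
def listkey (j : ℕ) (κ : ℕ → Option ℕ) : List ℕ :=
  (List.range j).map (fun s => (κ (j - s)).getD 0)

lemma listkey_keyfun (k : List ℕ) : listkey k.length (keyfun k) = k := by
  unfold listkey
  refine List.ext_getElem? (fun s => ?_)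
  rw [List.getElem?_map]
  rcases Nat.lt_or_ge s k.length with h | h
  · rw [List.getElem?_range h]
    simp only [Option.map_some]
    unfold keyfun
    rw [if_neg (by omega), if_pos (by omega)]
    have e : k.length - (k.length - s) = s := by omega
    rw [e, List.getElem?_eq_getElem h]
    rfl
  · rw [List.getElem?_eq_none_iff.mpr h, List.getElem?_eq_none_iff.mpr (by simpa using h)]
    rfl

/-- the prescribed hash function in terms of keys -/
def h0N (h0 : Hash) (i : ℕ) (κ : ℕ → Option ℕ) : ℕ := h0 (listkey (i - 1) κ)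

lemma h0N_bridge (h0 : Hash) (k : List ℕ) : h0N h0 (k.length + 1) (keyfun k) = h0 k := by
  unfold h0N
  rw [Nat.add_sub_cancel, listkey_keyfun]

end Pool.Agent.E3
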