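import Mathlib
import Pool.Agent.Helper3.E3.LBridge

/-!
# E-T (MP_12a1af_nt), phase 3: padding and the prescribed hash values
-/

open Finset

namespace Pool.Agent.E3

open Pool.Agent.ETS (Hash Lay Ind Xsp key key_eq_iff dig dig_val elt fib mem_fib ConsSet)
open Pool.Agent.ETP (LayN ConsSetN keyN digN eltN keyfun bridge toF toF_val padLay trivLay PadOK pad_bot
  pad_mono pad_bot0 pad_top pad_len pad_len_lt pad_V pad_V_lt pad_c pad_core pad_core_lt pad_mem
  pad_card ownz ownz_val key_of_keyN layP padP layP_eq padP_eq hown dig_own elt_own ownz_mem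
  vars mem_vars)
open Pool.Agent.E3F (nfI mem_nfI)

/-- the own key of a padded key -/
def decode (M m : ℕ) {N : ℕ} (κ : Fin M → Option (Fin N)) : ℕ → Option ℕ := fun t =>
  if h : t + (M - m) < M then (κ ⟨t + (M - m), h⟩).map Fin.val else none

lemma decode_key {M N : ℕ} (hN : 0 < N) {A : LayN} {m K : ℕ} (H : PadOK M N A m K)
    {z : Fin M → Fin N} (hz : ∀ j : Fin M, z j ∈ (padLay M N hN A m K).V j) {j : ℕ} (hj : j < m) :
    decode M m (key (padLay M N hN A m K) (j + (M - m)) z) = keyN A j (ownz M m z) := by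
  have hmM := H.mM
  funext t
  unfold decode
  by_cases h : t + (M - m) < M
  · rw [dif_pos h]
    have e1 : ownz M m z t = (z ⟨t + (M - m), h⟩).val := by
      have := ownz_val H z (i := t + (M - m)) (by omega) h
      have e : t + (M - m) - (M - m) = t := by omega
      rwa [e] at this
    unfold key keyN
    simp only
    rcases Nat.lt_trichotomy (t + 1) j with h1 | h1 | h1
    · rw [if_pos (by omega), if_pos h1, e1]
      rfl
    · rw [if_neg (by omega), if_pos (by omega), if_neg (by omega), if_pos h1, e1,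
        pad_core hN _ (by omega)]
      simp only [Option.map_some]
      have e : t + (M - m) - (M - m) = t := by omega
      have h2 := pad_mem hN H (by omega) h (hz ⟨t + (M - m), h⟩)
      rw [e] at h2 ⊢
      rw [toF_val hN h2.2]
    · rw [if_neg (by omega), if_neg (by omega), if_neg (by omega), if_neg (by omega)]
      rfl
  · rw [dif_neg h]
    unfold keyN
    rw [if_neg (by omega), if_neg (by omega)]

section

variable {M N Kmax : ℕ} (hN : 0 < N) (A : ℕ → LayN) (m : ℕ → ℕ) (K0 : ℕ) (nf : ℕ → Finset ℕ)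
  (h0 : ℕ → Hash)

/-- the prescribed regions of the padded layout -/
def nfP (M : ℕ) (m : ℕ → ℕ) (K0 : ℕ) (nf : ℕ → Finset ℕ) (K : ℕ) : Finset ℕ :=
  if K0 ≤ K then (nf K).image (fun j => j + 1 + (M - m K)) else ∅

/-- the prescribed hash values of the padded layout -/
def x0P : ∀ q : Ind M N Kmax, Xsp (layP M N hN A m K0) q := fun q =>
  ⟨h0N (h0 q.1.val) (q.2.1.val - (M - m q.1.val)) (decode M (m q.1.val) q.2.2) %
    2 ^ (layP M N hN A m K0 q.1.val).len q.2.1.val, Nat.mod_lt _ (by positivity)⟩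

/-- the hash function of the unpadded layout, with prescribed values -/
noncomputable def hpre (K : Fin (Kmax+1)) (x : ∀ q : Ind M N Kmax, Xsp (layP M N hN A m K0) q) :
    ℕ → (ℕ → Option ℕ) → ℕ := fun j k =>
  if j ∈ (nf K.val).image (fun j => j + 1) then h0N (h0 K.val) j k else hown hN A m K0 K x j k

lemma okh_hpre (K : Fin (Kmax+1)) (x : ∀ q : Ind M N Kmax, Xsp (layP M N hN A m K0) q) :
    OKh (nf K.val) (h0 K.val) (bridge (hpre hN A m K0 nf h0 K x)) := by
  intro k hk
  unfold bridge hpre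
  rw [if_pos (mem_image_of_mem _ hk), h0N_bridge]

variable {A m K0 nf h0}

lemma hown_eq {K : Fin (Kmax+1)} (hK : K0 ≤ K.val) (H : PadOK M N (A K) (m K) K.val)
    (x : ∀ q : Ind M N Kmax, Xsp (layP M N hN A m K0) q) {z : Fin M → Fin N}
    (hz : z ∈ vars M (layP M N hN A m K0) K) {j : ℕ} (hjM : j + (M - m K) < M) :
    (x (K, ⟨j + (M - m K), hjM⟩, key (layP M N hN A m K0 K) (j + (M - m K)) z)).val =
      hown hN A m K0 K x j (keyN (A K) j (ownz M (m K) z)) := by
  unfold hown
  have hex : ∃ z' : Fin M → Fin N, (z' ∈ vars M (layP M N hN A m K0) K ∧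
    keyN (A K) j (ownz M (m K) z') = keyN (A K) j (ownz M (m K) z)) ∧ j + (M - m K) < M :=
    ⟨z, ⟨hz, rfl⟩, hjM⟩
  rw [dif_pos hex]
  obtain ⟨⟨h1, h2⟩, _⟩ := hex.choose_spec
  have h3 := (mem_vars _).mp h1
  have h4 := (mem_vars _).mp hz
  rw [layP_eq hN A m K0 hK] at h3 h4
  have h5 := key_of_keyN hN H h3 h4 h2
  rw [← layP_eq hN A m K0 hK] at h5
  rw [h5]

lemma elt_pre {K : Fin (Kmax+1)} (hK : K0 ≤ K.val) (H : PadOK M N (A K) (m K) K.val)
    {x : ∀ q : Ind M N Kmax, Xsp (layP M N hN A m K0) q}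
    (hx : x ∈ fib (nfI (nfP M m K0 nf)) (x0P hN A m K0 h0)) {z : Fin M → Fin N}
    (hz : z ∈ vars M (layP M N hN A m K0) K) :
    eltN (A K) (m K) K (hpre hN A m K0 nf h0 K x) (ownz M (m K) z) =
      elt (layP M N hN A m K0) K x z := by
  rw [← elt_own hN hK H x hz]
  have hmM := H.mM
  unfold eltN
  congr 1
  refine Finset.sum_congr rfl (fun i hi => ?_)
  rw [mem_range] at hi
  congr 1
  unfold digN hpre
  split_ifs with hi2
  · -- prescribed
    have hiM : i + (M - m K) < M := by omega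
    have h1 := hown_eq hN hK H x hz hiM
    rw [← h1]
    have hq : ((K, ⟨i + (M - m K), hiM⟩, key (layP M N hN A m K0 K) (i + (M - m K)) z) :
        Ind M N Kmax) ∈ nfI (nfP M m K0 nf) := by
      rw [mem_nfI]
      simp only
      unfold nfP
      rw [if_pos hK, mem_image]
      obtain ⟨j, hj, rfl⟩ := mem_image.mp hi2
      exact ⟨j, hj, rfl⟩
    rw [mem_fib] at hx
    rw [hx _ hq]
    unfold x0P
    simp only
    have e1 : i + (M - m K.val) - (M - m K.val) = i := by omega
    have e2 : decode M (m K.val) (key (layP M N hN A m K0 K.val) (i + (M - m K.val)) z) =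
        keyN (A K) i (ownz M (m K) z) := by
      have h4 := (mem_vars _).mp hz
      rw [layP_eq hN A m K0 hK] at h4 ⊢
      exact decode_key hN H h4 hi
    have hlen : (layP M N hN A m K0 K.val).len (i + (M - m K)) = (A K).len i := by
      rw [layP_eq hN A m K0 hK, pad_len hN H (by omega) hiM]
      congr 1
    rw [e1, e2, hlen]
    exact (Nat.ModEq.add_left _ (Nat.mod_modEq _ _)).symm
  · rfl

/-- counting consistent pairs -/
lemma card_ConsSet_le2 {K K' : ℕ} (hK : K0 ≤ K) (hK' : K0 ≤ K')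
    (H : PadOK M N (A K) (m K) K) (H' : PadOK M N (A K') (m K') K') {i i' : ℕ}
    (hi : M - m K + 1 ≤ i) (hi' : M - m K' + 1 ≤ i') (hiM : i < M) (hiM' : i' < M)
    (n a κ₁ κ₂ a' κ₁' κ₂' : ℕ) (co co' : Fin N) :
    (ConsSet (layP M N hN A m K0) K K' i i' n a κ₁ κ₂ a' κ₁' κ₂' co co').card ≤
      (ConsSetN (A K) (A K') K K' (i - (M - m K)) (i' - (M - m K')) n a κ₁ κ₂ a' κ₁' κ₂'
        co.val co'.val).card := by
  classical
  have hm3 := H.m3
  have hm3' := H'.m3
  have hmM := H.mM
  have hmM' := H'.mM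
  have e1 : i - (M - m K) - 1 = i - 1 - (M - m K) := by omega
  have e1' : i' - (M - m K') - 1 = i' - 1 - (M - m K') := by omega
  have e2 : i - (M - m K) + 1 = i + 1 - (M - m K) := by omega
  have e2' : i' - (M - m K') + 1 = i' + 1 - (M - m K') := by omega
  refine card_le_card_of_injOn (fun bb => ((bb.1.1.val, bb.1.2.val), (bb.2.1.val, bb.2.2.val))) ?_ ?_
  · intro bb hbb
    have hbb' := Finset.mem_coe.mp hbb
    unfold ConsSet at hbb'
    rw [mem_filter, mem_product, mem_product, mem_product] at hbb'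
    obtain ⟨⟨⟨m1, m2⟩, ⟨m3, m4⟩⟩, hc, hc', hcons⟩ := hbb'
    rw [layP_eq hN A m K0 hK] at m1 m2 hc hcons
    rw [layP_eq hN A m K0 hK'] at m3 m4 hc' hcons
    have q1 := pad_mem hN H (by omega) (by omega) m1
    have q2 := pad_mem hN H (by omega) (by omega) m2
    have q3 := pad_mem hN H' (by omega) (by omega) m3
    have q4 := pad_mem hN H' (by omega) (by omega) m4
    apply Finset.mem_coe.mpr
    unfold ConsSetN
    rw [mem_filter, mem_product, mem_product, mem_product]
    simp only
    rw [e1, e1']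
    refine ⟨⟨⟨q1.1, q2.1⟩, ⟨q3.1, q4.1⟩⟩, ?_, ?_, ?_⟩
    · rw [← hc, pad_core hN _ (by omega), toF_val hN q1.2]
    · rw [← hc', pad_core hN _ (by omega), toF_val hN q3.2]
    · obtain ⟨u, u', hu, hu', heq⟩ := hcons
      refine ⟨u, u', ?_, ?_, ?_⟩
      · rw [e2]; rwa [pad_bot hN H (by omega)] at hu
      · rw [e2']; rwa [pad_bot hN H' (by omega)] at hu'
      · rw [e1, e1', e2, e2']
        rw [pad_bot hN H (by omega), pad_bot hN H (by omega), pad_bot hN H (by omega),
          pad_bot hN H' (by omega), pad_bot hN H' (by omega), pad_bot hN H' (by omega),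
          pad_len hN H (by omega) (by omega), pad_len hN H (by omega) (by omega),
          pad_len hN H' (by omega) (by omega), pad_len hN H' (by omega) (by omega),
          pad_c hN _ (by omega), pad_c hN _ (by omega), pad_c hN _ (by omega),
          pad_c hN _ (by omega)] at heq
        exact heq
  · intro bb _ bb' _ h
    simp only [Prod.mk.injEq] at h
    obtain ⟨⟨h1, h2⟩, ⟨h3, h4⟩⟩ := h
    exact Prod.ext (Prod.ext (Fin.ext h1) (Fin.ext h2)) (Prod.ext (Fin.ext h3) (Fin.ext h4))

end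

end Pool.Agent.E3
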