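import Mathlib
import Pool.Agent.Helper3.E3.LLists
import Pool.Agent.Helper86.E3.Zone2
import Pool.Agent.ETS.Red

/-!
# E-T (MP_12a1af_nt), phase 3: the zones of the frame and the zones of the regions `Reg2`
-/

variable [Pool.Agent.Helper29.E3.EpFn]

open Finset

namespace Pool.Agent.E3

open Pool.Agent.ETS (Hash Zone zcons mem_zcons Reg Codes zRS pairs mem_pairs)
open Pool.Agent.ETP (phiV)
open Pool.Agent.Helper86.E3 (zrg ZoneOf2 FarB)

/-- the number of the unknown variables of the region `r0` below -/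
def mul0 (D : Codes2) : Reg2 → ℕ
  | .cell l _ => (D.Sd l).card
  | _ => 1

/-- `Z` is covered by at most `n` zones with the property `P` and the same top -/
def CovBy (P : Zone → Prop) (n : ℕ) (Z : Zone) : Prop :=
  ∃ (I : Finset ℕ) (f : ℕ → Zone), I.card ≤ n ∧ (∀ i ∈ I, P (f i) ∧ (f i).top = Z.top) ∧
    ∀ s ∈ Z.S, ∃ i ∈ I, s ∈ (f i).S

lemma covBy_one {P : Zone → Prop} {Z Z' : Zone} (hP : P Z') (ht : Z'.top = Z.top)
    (hs : ∀ s ∈ Z.S, s ∈ Z'.S) : CovBy P 1 Z :=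
  ⟨{0}, fun _ => Z', by simp, fun _ _ => ⟨hP, ht⟩, fun s h => ⟨0, by simp, hs s h⟩⟩

lemma zcons_cov {P P' : Zone → Prop} {n n' B K K' : ℕ}
    (hB : ∀ ν Z Z', P Z → P' Z' → (zcons K K' ν Z Z').card ≤ B) {Z Z' : Zone}
    (h : CovBy P n Z) (h' : CovBy P' n' Z') (ν : ℕ) :
    (zcons K K' ν Z Z').card ≤ n * n' * B := by
  classical
  obtain ⟨I, f, hI, hf, hc⟩ := h
  obtain ⟨I', f', hI', hf', hc'⟩ := h'
  have hsub : zcons K K' ν Z Z' ⊆
      (I ×ˢ I').biUnion (fun i => zcons K K' ν (f i.1) (f' i.2)) := by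
    intro s hs
    rw [mem_zcons] at hs
    obtain ⟨⟨h1, h2⟩, u, u', hu, hu', he⟩ := hs
    obtain ⟨i, hi, hsi⟩ := hc _ h1
    obtain ⟨i', hi', hsi'⟩ := hc' _ h2
    rw [mem_biUnion]
    refine ⟨(i, i'), by rw [mem_product]; exact ⟨hi, hi'⟩, ?_⟩
    rw [mem_zcons]
    refine ⟨⟨hsi, hsi'⟩, u, u', ?_, ?_, ?_⟩
    · rw [(hf i hi).2]; exact hu
    · rw [(hf' i' hi').2]; exact hu'
    · rw [(hf i hi).2, (hf' i' hi').2]; exact he
  calc (zcons K K' ν Z Z').card ≤ _ := card_le_card hsub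
    _ ≤ ∑ i ∈ I ×ˢ I', (zcons K K' ν (f i.1) (f' i.2)).card := card_biUnion_le
    _ ≤ ∑ i ∈ I ×ˢ I', B := by
        refine Finset.sum_le_sum (fun i hi => ?_)
        rw [mem_product] at hi
        exact hB ν _ _ (hf i.1 hi.1).1 (hf' i.2 hi.2).1
    _ = I.card * I'.card * B := by rw [sum_const, card_product, smul_eq_mul]
    _ ≤ n * n' * B := Nat.mul_le_mul_right _ (Nat.mul_le_mul hI hI')

/-- conditions for two consecutive regions -/
structure Ok01 (D : Codes2) (q0 q1 : Reg2) : Prop where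
  le : (q0.rg D).bot ≤ (q0.rg D).top
  next : (q0.rg D).top = (q1.rg D).bot
  fol : ∀ p e f b, q0 = .old (.PT p e f b) → f ≤ b ∧ ∃ v, q1 = .old (.R (b + D.W e) v)

lemma low_lt {b l t a x : ℕ} (ha : a < 2 ^ b) (hx : x < 2 ^ l) (ht : b + l = t) :
    a + 2 ^ b * x < 2 ^ t := by
  rw [← ht, pow_add]
  calc a + 2 ^ b * x < 2 ^ b + 2 ^ b * x := by omega
    _ = 2 ^ b * (x + 1) := by ring
    _ ≤ 2 ^ b * 2 ^ l := Nat.mul_le_mul_left _ hx

lemma zoneOf2_gen {D : Codes2} {q0 q1 : Reg2} (h0 : ∀ p e f b, q0 ≠ .old (.PT p e f b))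
    {a κ : ℕ} (ha : a < 2 ^ (q1.rg D).bot) : ZoneOf2 D q0 q1 (zrg (q1.rg D) a κ) := by
  unfold ZoneOf2
  split
  · exact absurd rfl (h0 _ _ _ _)
  · exact ⟨a, κ, ha, rfl⟩

/-- the region below has the core `id` -/
lemma cov_id {D : Codes2} {q0 q1 : Reg2} (h : Ok01 D q0 q1)
    (h0 : ∀ p e f b, q0 ≠ .old (.PT p e f b)) (hid : ∀ z, (q0.rg D).core z = z) {Z : Zone}
    (hZ : BlkZ (q0.rg D) (q1.rg D) Z) : CovBy (ZoneOf2 D q0 q1) 1 Z := by
  obtain ⟨a, κ₁, κ₂, co, ha, rfl⟩ := hZ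
  have hlt : a + 2 ^ (q0.rg D).bot * (((q0.rg D).c co + κ₁) % 2 ^ (q0.rg D).len) <
      2 ^ (q1.rg D).bot :=
    low_lt ha (Nat.mod_lt _ (by positivity)) (by
      have := h.le; have := h.next; unfold Rg.len; omega)
  refine covBy_one (zoneOf2_gen h0 (κ := κ₂) hlt) rfl ?_
  intro s hs
  unfold blkz at hs
  simp only at hs
  rw [mem_image] at hs
  obtain ⟨q, hq, rfl⟩ := hs
  rw [mem_product, mem_filter, hid] at hq
  unfold zrg
  simp only
  rw [mem_image]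
  exact ⟨q.2, hq.2, by rw [hq.1.2]⟩

/-- the region below is a small cell -/
lemma cov_cell {D : Codes2} {l s : ℕ} {q1 : Reg2} (h : Ok01 D (.cell l s) q1) {Z : Zone}
    (hZ : BlkZ ((Reg2.cell l s).rg D) (q1.rg D) Z) :
    CovBy (ZoneOf2 D (.cell l s) q1) (D.Sd l).card Z := by
  obtain ⟨a, κ₁, κ₂, co, ha, rfl⟩ := hZ
  have hlt : ∀ x, a + 2 ^ s * ((x + κ₁) % 2 ^ l) < 2 ^ (q1.rg D).bot := fun x =>
    low_lt ha (Nat.mod_lt _ (by positivity)) (by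
      have := h.next
      have e : ((Reg2.cell l s).rg D).top = s + l := rfl
      omega)
  refine ⟨D.Sd l, fun x => zrg (q1.rg D) (a + 2 ^ s * ((x + κ₁) % 2 ^ l)) κ₂, le_refl _,
    fun x _ => ⟨zoneOf2_gen (by simp) (hlt x), rfl⟩, ?_⟩
  intro v hv
  unfold blkz at hv
  simp only at hv
  rw [mem_image] at hv
  obtain ⟨q, hq, rfl⟩ := hv
  rw [mem_product, mem_filter] at hq
  refine ⟨q.1, hq.1.1, ?_⟩
  unfold zrg
  simp only
  rw [mem_image]
  refine ⟨q.2, hq.2, ?_⟩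
  have e : ((Reg2.cell l s).rg D).len = l := by
    show s + l - s = l
    omega
  rw [e]
  rfl

/-- the region below is of type `P^T` -/
lemma cov_PT {D : Codes2} {p e f b : ℕ} {q1 : Reg2} (h : Ok01 D (.old (.PT p e f b)) q1)
    {Z : Zone} (hZ : BlkZ ((Reg2.old (.PT p e f b)).rg D) (q1.rg D) Z) :
    CovBy (ZoneOf2 D (.old (.PT p e f b)) q1) 1 Z := by
  obtain ⟨hfb, v, rfl⟩ := h.fol p e f b rfl
  obtain ⟨a, κ₁, κ₂, co, ha, rfl⟩ := hZ
  set q := D.P p (b + D.W e - f) co + κ₁ with hq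
  have hlenq : b + D.W e - f = (b - f) + D.W e := by omega
  have haf : a < 2 ^ f := ha
  have hlt : a + 2 ^ f * (q % 2 ^ (b - f)) < 2 ^ b :=
    low_lt haf (Nat.mod_lt _ (by positivity)) (by omega)
  refine covBy_one (Z' := zRS D.toCodes e b v (a + 2 ^ f * (q % 2 ^ (b - f))) (q / 2 ^ (b - f)) κ₂)
    ⟨_, _, _, hlt, rfl⟩ rfl ?_
  intro s hs
  unfold blkz at hs
  simp only at hs
  rw [mem_image] at hs
  obtain ⟨z, hz, rfl⟩ := hs
  rw [mem_product, mem_filter] at hz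
  obtain ⟨⟨hz1, hz2⟩, hz3⟩ := hz
  have hz1' : z.1 ∈ pairs (D.X p (b - f)) (D.T e) := hz1
  have hz2' : (Nat.unpair z.1).1 = co := hz2
  have hz3' : z.2 ∈ D.Y (v - (b + D.W e)) := hz3
  rw [mem_pairs] at hz1'
  unfold zRS
  simp only
  rw [mem_image]
  refine ⟨Nat.pair z.2 (Nat.unpair z.1).2, ?_, ?_⟩
  · rw [mem_pairs, Nat.unpair_pair]
    exact ⟨hz3', hz1'.2⟩
  · rw [Nat.unpair_pair]
    simp only
    have e1 : a + 2 ^ f * ((D.P p (b + D.W e - f) (Nat.unpair z.1).1 +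
        2 ^ (b - f) * (Nat.unpair z.1).2 + κ₁) % 2 ^ (b + D.W e - f)) =
        (a + 2 ^ f * (q % 2 ^ (b - f))) +
          2 ^ b * (((Nat.unpair z.1).2 + q / 2 ^ (b - f)) % 2 ^ D.W e) := by
      have e2 : D.P p (b + D.W e - f) (Nat.unpair z.1).1 + 2 ^ (b - f) * (Nat.unpair z.1).2 + κ₁ =
          q + 2 ^ (b - f) * (Nat.unpair z.1).2 := by
        rw [hq, hz2']; ring
      rw [e2, hlenq, ETS.mod_split]
      have e3 : (2:ℕ) ^ b = 2 ^ f * 2 ^ (b - f) := by rw [← pow_add]; congr 1; omega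
      rw [e3]
      ring
    have e4 : (((Reg2.old (.PT p e f b)).rg D).c z.1 + κ₁) =
        (D.P p (b + D.W e - f) (Nat.unpair z.1).1 + 2 ^ (b - f) * (Nat.unpair z.1).2 + κ₁) := rfl
    have e5 : ((Reg2.old (.PT p e f b)).rg D).len = b + D.W e - f := rfl
    have e6 : ((Reg2.old (.PT p e f b)).rg D).bot = f := rfl
    rw [e4, e5, e6, e1]
    rfl

/-- **the zones of the frame are covered by zones of the regions** -/
theorem cov_blkZ {D : Codes2} {q0 q1 : Reg2} (h : Ok01 D q0 q1) {Z : Zone}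
    (hZ : BlkZ (q0.rg D) (q1.rg D) Z) : CovBy (ZoneOf2 D q0 q1) (mul0 D q0) Z := by
  cases q0 with
  | old r =>
    cases r with
    | PT p e f b => exact cov_PT h hZ
    | _ => exact cov_id h (by simp) (fun _ => rfl) hZ
  | cell l s => exact cov_cell h hZ
  | _ => exact cov_id h (by simp) (fun _ => rfl) hZ

/-- the first region -/
lemma cov_rg0 {D : Codes2} {q1 : Reg2} {Z : Zone}
    (hZ : BlkZ rg0 (q1.rg D) Z) : CovBy (ZoneOf2 D (.old (.R 0 0)) q1) 1 Z := by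
  obtain ⟨a, κ₁, κ₂, co, ha, rfl⟩ := hZ
  have ha0 : a = 0 := by
    have : a < 2 ^ 0 := ha
    omega
  subst ha0
  refine covBy_one (zoneOf2_gen (D := D) (q0 := .old (.R 0 0)) (q1 := q1) (a := 0) (κ := κ₂)
    (by simp) (by positivity)) rfl ?_
  intro s hs
  unfold blkz at hs
  simp only at hs
  rw [mem_image] at hs
  obtain ⟨q, hq, rfl⟩ := hs
  rw [mem_product] at hq
  unfold zrg
  simp only
  rw [mem_image]
  refine ⟨q.2, hq.2, ?_⟩
  have e1 : (rg0.c q.1 + κ₁) % 2 ^ rg0.len = 0 := by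
    have : rg0.len = 0 := rfl
    rw [this, pow_zero, Nat.mod_one]
  rw [e1, mul_zero, add_zero]

/-- **the zones of a layout** -/
theorem cov_map {D : Codes2} {l : List Reg2}
    (hO : ∀ j q0 q1, l[j]? = some q0 → l[j+1]? = some q1 → Ok01 D q0 q1) {j : ℕ} {r0 r1 : Rg}
    (h0 : (rg0 :: l.map (Reg2.rg D))[j]? = some r0) (h1 : (l.map (Reg2.rg D))[j]? = some r1) :
    ∃ q0 q1, (Reg2.old (.R 0 0) :: l)[j]? = some q0 ∧ l[j]? = some q1 ∧ r1 = q1.rg D ∧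
      ∀ Z, BlkZ r0 r1 Z → CovBy (ZoneOf2 D q0 q1) (mul0 D q0) Z := by
  rw [List.getElem?_map] at h1
  obtain ⟨q1, hq1, rfl⟩ := Option.map_eq_some_iff.mp h1
  rcases Nat.eq_zero_or_pos j with rfl | hj
  · simp only [List.getElem?_cons_zero, Option.some.injEq] at h0
    subst h0
    refine ⟨.old (.R 0 0), q1, rfl, hq1, rfl, fun Z hZ => cov_rg0 hZ⟩
  · obtain ⟨i, rfl⟩ : ∃ i, j = i + 1 := ⟨j - 1, by omega⟩
    rw [List.getElem?_cons_succ, List.getElem?_map] at h0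
    obtain ⟨q0, hq0, rfl⟩ := Option.map_eq_some_iff.mp h0
    exact ⟨q0, q1, by rw [List.getElem?_cons_succ]; exact hq0, hq1, rfl,
      fun Z hZ => cov_blkZ (hO i q0 q1 hq0 hq1) hZ⟩

/-- the far bound of the frame from the far bound for zones -/
theorem far_of_farB {D : Codes2} {q0 q1 q0' q1' : Reg2} {r0 r1 r0' r1' : Rg} {K K' q e N m : ℕ}
    {ε : ℝ} (h1 : r1 = q1.rg D) (h1' : r1' = q1'.rg D)
    (hc : ∀ Z, BlkZ r0 r1 Z → CovBy (ZoneOf2 D q0 q1) (mul0 D q0) Z)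
    (hc' : ∀ Z, BlkZ r0' r1' Z → CovBy (ZoneOf2 D q0' q1') (mul0 D q0') Z)
    (hm : mul0 D q0 * mul0 D q0' ≤ 2 ^ m)
    (hF : FarB q K K' (q1.rg D).top (q1'.rg D).top (ZoneOf2 D q0 q1) (ZoneOf2 D q0' q1'))
    (hN : m + N + e ≤ q) (hε : (1/2 : ℝ) ^ e ≤ ε) :
    ∃ B : ℕ, (∀ n Z Z', BlkZ r0 r1 Z → BlkZ r0' r1' Z' → (zcons K K' n Z Z').card ≤ B) ∧
      (B : ℝ) * phiV K K' r1.top r1'.top * 2 ^ N ≤ ε := by
  obtain ⟨B, hB1, hB2⟩ := hF
  refine ⟨mul0 D q0 * mul0 D q0' * B,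
    fun n Z Z' hZ hZ' => zcons_cov hB1 (hc Z hZ) (hc' Z' hZ') n, ?_⟩
  rw [h1, h1']
  refine le_trans ?_ hε
  have hphi : 0 ≤ phiV K K' (q1.rg D).top (q1'.rg D).top := by unfold phiV; positivity
  have hm' : ((mul0 D q0 * mul0 D q0' : ℕ) : ℝ) ≤ 2 ^ m := by exact_mod_cast hm
  push_cast at hm' ⊢
  calc (mul0 D q0 : ℝ) * mul0 D q0' * B * phiV K K' (q1.rg D).top (q1'.rg D).top * 2 ^ N
      = (mul0 D q0 * mul0 D q0' : ℝ) * (B * phiV K K' (q1.rg D).top (q1'.rg D).top) * 2 ^ N := by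
        ring
    _ ≤ 2 ^ m * (1/2) ^ q * 2 ^ N := by
        refine mul_le_mul_of_nonneg_right ?_ (by positivity)
        exact mul_le_mul hm' hB2 (mul_nonneg (by positivity) hphi) (by positivity)
    _ = 2 ^ (m + N) * (1/2) ^ q := by rw [pow_add]; ring
    _ ≤ 2 ^ (m + N) * (1/2) ^ (m + N + e) :=
        mul_le_mul_of_nonneg_left (pow_le_pow_of_le_one (by norm_num) (by norm_num) hN)
          (by positivity)
    _ = (2 * (1/2)) ^ (m + N) * (1/2) ^ e := by rw [mul_pow, pow_add]; ring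
    _ = (1/2) ^ e := by norm_num

end Pool.Agent.E3
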