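import Mathlib
import Pool.Agent.Helper3.E3.Low
import Pool.Agent.E3S.MkFacts
import Pool.Agent.Helper5.ETP.CrossZ

/-!
# E-T (MP_12a1af_nt), phase 3: far pairs, a `P` run of `K` against an `R` zone of `K'` (X1)

Port of `Helper16/ETX/X1`, `X1b`.
-/

variable [Pool.Agent.Helper29.E3.EpFn]

open Finset

namespace Pool.Agent.E3S.Cr

open Pool.Agent.ETS
open Pool.Agent.ETS.RC (RBase)
open Pool.Agent.E3S.RC (zoneOf_top zoneOf_reg desc_top card_zone_R)
open Pool.Agent.Helper29.ETK (Kid CC lg)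
open Pool.Agent.Helper29.E3 (kid wb ep Wd av ab ag ak gth epo Wd_pos)
open Pool.Agent.E3 (pidx isPT Desc IsDesc Occ ddist)
open Pool.Agent.ETP (phiV)
open Pool.Agent.Helper5.ETP
open Pool.Agent.Helper83.ET (BTh BT BT_le_BTh)

/-- **What the crossing pairs use about the codes.**  `B e` is a bound of the multiplicities. -/
structure CrossCodes (C : Codes) (c : ℕ) (B : ℕ → ℕ) : Prop where
  W : ∀ e, C.W e = CC c ^ e
  P : ∀ p, PCode (C.X p) (C.P p)
  base : ∀ e, 40 ≤ e → RBase C e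
  two : ∀ e, 40 ≤ e → 2 ≤ B e
  TQP : ∀ e, 40 ≤ e → ∀ l q r, q + C.W e ≤ l → l ≤ 50 * CC c ^ (e + 1) →
    (C.T e ∩ QP (C.X (e+1)) (C.P (e+1)) (C.W e) l q r).card ≤ B e
  ThQP : ∀ e, 40 ≤ e → ∀ l q r, q + C.W e ≤ l → l ≤ 50 * CC c ^ (e + 1) →
    (C.Th e ∩ QP (C.X (e+1)) (C.P (e+1)) (C.W e) l q r).card ≤ B e
  mTT : ∀ e, 40 ≤ e → SumB (C.W e) (C.T e) (C.T e) (B e)
  mTTh : ∀ e, 40 ≤ e → SumB (C.W e) (C.T e) (C.Th e) (B e)

lemma sumB_of_mult {W r : ℕ} {X X' : Finset ℕ} (h : RC.Mult W r X X') : SumB W X X' r := by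
  intro s
  refine (card_le_card ?_).trans (h (s % 2 ^ W))
  intro q hq
  rw [mem_filter] at hq ⊢
  exact ⟨hq.1, hq.2⟩

/-- the facts about the block digits of the variables which are not in `CodeFacts` -/
structure CrossC (c : ℕ) (D : Codes) : Prop where
  TQP : ∀ e, 40 ≤ e → ∀ l q r, q + CC c ^ e ≤ l → l ≤ 50 * CC c ^ (e + 1) →
    (D.T e ∩ QP (D.X (e+1)) (D.P (e+1)) (CC c ^ e) l q r).card ≤ BTh (CC c) e
  ThQP : ∀ e, 40 ≤ e → ∀ l q r, q + CC c ^ e ≤ l → l ≤ 50 * CC c ^ (e + 1) →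
    (D.Th e ∩ QP (D.X (e+1)) (D.P (e+1)) (CC c ^ e) l q r).card ≤ BTh (CC c) e

theorem crossC_mk2 {c : ℕ} {Sd TK : ℕ → Finset ℕ} (hc : 20 ≤ c) (hS : Helper83.E3.SdOK Sd) :
    CrossC c (Helper83.E3.mk2 c Sd TK).toCodes where
  TQP := by
    intro e he l q r h1 h2
    have h := (Helper83.E3.mk2_loc2 (TK := TK) hc hS he).toLocG
    exact (Helper83.E3.mkT_T_QP (CC_ge hc) h.nearT r h1 h2).trans
      (BT_le_BTh (CC_ge hc) (by omega))
  ThQP := by
    intro e he l q r h1 h2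
    have h := (Helper83.E3.mk2_loc2 (TK := TK) hc hS he).toLocG
    exact Helper83.E3.mkT_Th_QP (CC_ge hc) h r h1 h2

lemma crossCodes_of {c : ℕ} {D : Codes} (hc : 20 ≤ c) (H : CodeFacts c D) (hX : CrossC c D) :
    CrossCodes D c (BTh (CC c)) where
  W := H.W
  P := fun p => H.pc p
  base := fun e he => by
    obtain ⟨r, hr⟩ := H.R e he
    exact hr.toRBase
  two := fun e he => by
    have h2 : 2 ≤ BT (CC c) e := by
      unfold BT
      have := CC_pos c
      have : 0 < CC c ^ (e + 1) := by positivity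
      omega
    exact h2.trans (BT_le_BTh (CC_ge hc) (by omega))
  TQP := fun e he l q r h1 h2 => by
    rw [H.W] at h1 ⊢
    exact hX.TQP e he l q r h1 h2
  ThQP := fun e he l q r h1 h2 => by
    rw [H.W] at h1 ⊢
    exact hX.ThQP e he l q r h1 h2
  mTT := fun e he c' => by
    obtain ⟨r, hr⟩ := H.R e he
    exact (sumB_of_mult hr.mTT c').trans hr.rB
  mTTh := fun e he c' => by
    obtain ⟨r, hr⟩ := H.R e he
    exact (sumB_of_mult hr.mTTh c').trans hr.rB

/-- the multiplicities are small -/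
lemma hB_of {c K : ℕ} (hc : 20 ≤ c) (hE : 20 ≤ epo c K) : ∀ s ≤ K, 40 ≤ ep c s →
    4 * BTh (CC c) (ep c s) ≤ 2 ^ (gth c K / (4 * CC c)) := by
  intro s hs he
  have h1 := num_BTh hc hE (e := ep c s) (by omega) (ep_mono hs)
  omega

section

variable {C : Codes} {c : ℕ} {B : ℕ → ℕ}

/-- both families: `QPB` for `T` and `Theta` -/
structure QPB2 (C : Codes) (p e l q B : ℕ) : Prop where
  T : QPB (C.X p) (C.P p) (C.W e) l q B (C.T e)
  Th : QPB (C.X p) (C.P p) (C.W e) l q B (C.Th e)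

/-- short known part -/
lemma qpb2_short (hX : CrossCodes C c B) {e l q : ℕ} (he : 40 ≤ e) (h1 : q + C.W e ≤ l)
    (h2 : l ≤ 50 * CC c ^ (e + 1)) : QPB2 C (e + 1) e l q (B e) := by
  constructor
  · intro r A h3 h4
    exact (card_le_card (subset_inter h3 h4)).trans (hX.TQP e he l q r h1 h2)
  · intro r A h3 h4
    exact (card_le_card (subset_inter h3 h4)).trans (hX.ThQP e he l q r h1 h2)

/-- the digits below the block determine the variable -/
lemma qpb2_low (hX : CrossCodes C c B) {p e l q : ℕ} (he : 40 ≤ e) (h1 : q + C.W e ≤ l)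
    (h2 : (l + 1) / 2 ≤ q) : QPB2 C p e l q (B e) := by
  have h3 : 2 ^ ((l + 1) / 2 - q) + 1 ≤ B e := by
    have : (l + 1) / 2 - q = 0 := by omega
    rw [this]
    exact hX.two e he
  constructor
  · intro r A _ h4
    exact ((card_le_card h4).trans (card_QP_low (hX.P p) h1)).trans h3
  · intro r A _ h4
    exact ((card_le_card h4).trans (card_QP_low (hX.P p) h1)).trans h3

/-- block types -/
def IsB : Desc → Prop
  | .RS _ _ _ => True
  | .RT _ _ => True
  | .RTh _ _ => True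
  | _ => False

/-- **crossing count**: a `P` type zone against a zone with a block inside the known range -/
lemma cross_count {t : ℕ} (hW : ∀ e, C.W e = CC c ^ e) {d' : Desc} {r0' r1' : Reg}
    (hb : RBase C (ep c d'.lo)) (hd' : IsDesc c t d' r0' r1') (hB' : IsB d')
    {Z Z' : Zone} (hZ' : ZoneOf C r0' r1' Z') {p l f g q K K' n M : ℕ}
    (hS : PRep (C.X p) (C.P p) f l g Z.S) (hok : Zone.Ok Z) (hm : f + l ≤ Z.top)
    (hq : q + C.W (ep c d'.lo) ≤ l) (hlo : d'.lo = f + q) (hv : Z.top ≤ d'.hi c)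
    (hQ : QPB2 C p (ep c d'.lo) l q M) (hK : Z.top ≤ K) (hK' : d'.hi c ≤ K') :
    (zcons K K' n Z Z').card ≤ (2 * M) * 2 ^ ((d'.hi c - d'.Ip c) / 2) := by
  have hR : d'.IsR := by cases d' <;> first | exact trivial | exact hB'.elim
  have htop : Z'.top = d'.hi c := by rw [zoneOf_top hZ', desc_top hd' hR]
  have h0 : (zcons K K' n Z Z').card ≤ (pmod Z.top n Z.S Z'.S).card :=
    zcons_card_le_pmod hK (by rw [htop]; exact hK') le_rfl (by rw [htop]; exact hv)
  refine h0.trans ?_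
  have hY : ∀ l', (C.Y l').card ≤ 2 ^ (l' / 2) := fun l' => by
    rw [hb.hY]; exact RC.card_Yq_le _
  have hWW : ∀ s, C.W (ep c s) = Wd c s := fun s => hW _
  cases d' with
  | P g e => exact hB'.elim
  | PT g b => exact hB'.elim
  | R b v => exact hB'.elim
  | RS g' b v =>
    obtain ⟨e0, e1, -⟩ := hd'
    simp only [Desc.lo, Desc.hi, Desc.Ip] at *
    subst e0 e1
    obtain ⟨a, κ, κ₂, -, rfl⟩ := hZ'
    refine (cross_RS hS hok hm hq hlo (by exact hv) hb.hT hQ.T).trans ?_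
    rw [mul_comm]
    refine Nat.mul_le_mul_left _ ?_
    refine (hY _).trans (Nat.pow_le_pow_right two_pos ?_)
    rw [hWW]
    simp only [Reg.top]
    exact le_rfl
  | RT b v =>
    obtain ⟨e1, e0, -⟩ := hd'
    simp only [Desc.lo, Desc.hi, Desc.Ip] at *
    subst e1
    obtain ⟨a, κ, -, rfl⟩ := zoneOf_reg hZ' e0
    refine (cross_RT hS hok hm hq hlo hv hb.hT hQ.T).trans ?_
    rw [mul_comm]
    refine Nat.mul_le_mul (by omega) ?_
    refine (hY _).trans (Nat.pow_le_pow_right two_pos ?_)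
    rw [hWW, Nat.sub_sub]
  | RTh b v =>
    obtain ⟨e1, e0, -⟩ := hd'
    simp only [Desc.lo, Desc.hi, Desc.Ip] at *
    subst e1
    obtain ⟨a, κ, -, rfl⟩ := zoneOf_reg hZ' e0
    refine (cross_RTh hS hok hm hq hlo hv hb.hTh hQ.Th).trans ?_
    rw [mul_comm]
    refine Nat.mul_le_mul (by omega) ?_
    refine (hY _).trans (Nat.pow_le_pow_right two_pos ?_)
    rw [hWW, Nat.sub_sub]

/-- **same block**: `PT` against a zone with the block at the same place -/
lemma same_count (hX : CrossCodes C c B) {t : ℕ} {d' : Desc} {r0' r1' : Reg}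
    (he : 40 ≤ ep c d'.lo) (hd' : IsDesc c t d' r0' r1') (hB' : IsB d')
    {Z' : Zone} (hZ' : ZoneOf C r0' r1' Z') {p g a κ K K' n : ℕ} (hg : g ≤ d'.lo)
    (ha : a < 2 ^ g) (hv : d'.lo + C.W (ep c d'.lo) ≤ d'.hi c) (hK : d'.hi c ≤ K)
    (hK' : d'.hi c ≤ K') :
    (zcons K K' n (zreg C (.PT p (ep c d'.lo) g d'.lo) a κ) Z').card ≤
      (2 * B (ep c d'.lo)) * 2 ^ ((d'.hi c - d'.Ip c) / 2) := by
  have hb := hX.base _ he
  have hR : d'.IsR := by cases d' <;> first | exact trivial | exact hB'.elim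
  have htop : Z'.top = d'.hi c := by rw [zoneOf_top hZ', desc_top hd' hR]
  have h0 : (zcons K K' n (zreg C (.PT p (ep c d'.lo) g d'.lo) a κ) Z').card ≤
      (pmod (d'.lo + C.W (ep c d'.lo)) n (zreg C (.PT p (ep c d'.lo) g d'.lo) a κ).S Z'.S).card :=
    zcons_card_le_pmod (show d'.lo + C.W (ep c d'.lo) ≤ K by omega) (by rw [htop]; exact hK')
      le_rfl (by rw [htop]; exact hv)
  refine h0.trans ?_
  have hY : ∀ l', (C.Y l').card ≤ 2 ^ (l' / 2) := fun l' => by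
    rw [hb.hY]; exact RC.card_Yq_le _
  have hWW : ∀ s, C.W (ep c s) = Wd c s := fun s => hX.W _
  cases d' with
  | P g e => exact hB'.elim
  | PT g b => exact hB'.elim
  | R b v => exact hB'.elim
  | RS g' b v =>
    obtain ⟨e0, e1, -⟩ := hd'
    simp only [Desc.lo, Desc.hi, Desc.Ip] at *
    subst e0 e1
    obtain ⟨a', κ', κ₂, -, rfl⟩ := hZ'
    refine (same_RS (hX.P p) hg ha (hX.mTT _ he)).trans ?_
    rw [mul_comm]
    refine Nat.mul_le_mul (by omega) ?_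
    refine (hY _).trans (Nat.pow_le_pow_right two_pos ?_)
    rw [hWW]
    simp only [Reg.top]
    exact le_rfl
  | RT b v =>
    obtain ⟨e1, e0, -⟩ := hd'
    simp only [Desc.lo, Desc.hi, Desc.Ip] at *
    subst e1
    obtain ⟨a', κ', -, rfl⟩ := zoneOf_reg hZ' e0
    refine (same_RT (hX.P p) hg hv ha (hX.mTT _ he)).trans ?_
    rw [mul_comm]
    refine Nat.mul_le_mul (by omega) ?_
    refine (hY _).trans (Nat.pow_le_pow_right two_pos ?_)
    rw [hWW, Nat.sub_sub]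
  | RTh b v =>
    obtain ⟨e1, e0, -⟩ := hd'
    simp only [Desc.lo, Desc.hi, Desc.Ip] at *
    subst e1
    obtain ⟨a', κ', -, rfl⟩ := zoneOf_reg hZ' e0
    refine (same_RTh (hX.P p) hg hv ha (hX.mTTh _ he)).trans ?_
    rw [mul_comm]
    refine Nat.mul_le_mul (by omega) ?_
    refine (hY _).trans (Nat.pow_le_pow_right two_pos ?_)
    rw [hWW, Nat.sub_sub]

/-- zones of `P` type -/
lemma zone_P (hW : ∀ e, C.W e = CC c ^ e) (hP : ∀ p, PCode (C.X p) (C.P p)) {t : ℕ} {d : Desc}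
    {r0 r1 : Reg} (hd : IsDesc c t d r0 r1) (hp : d.IsP) {Z : Zone} (hZ : ZoneOf C r0 r1 Z) :
    Z.top = d.hi c ∧ Zone.Ok Z ∧ r1.top C = d.hi c ∧
    ((∃ g e, d = .P g e ∧ ∃ a κ, a < 2 ^ g ∧ Z = zreg C (.P (pidx c g) g e) a κ ∧
      PRep (C.X (pidx c g)) (C.P (pidx c g)) g (e - g) (a + 2 ^ g * κ) Z.S) ∨
     (∃ g b, d = .PT g b ∧ ∃ a κ, a < 2 ^ g ∧ Z = zreg C (.PT (pidx c g) (ep c b) g b) a κ ∧
      PRep (C.X (pidx c g)) (C.P (pidx c g)) g (b - g) (a + 2 ^ g * κ) Z.S)) := by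
  have hWW : ∀ s, C.W (ep c s) = Wd c s := fun s => hW _
  cases d with
  | P g e =>
    obtain ⟨e1, e0, h3, -⟩ := hd
    subst e1
    obtain ⟨a, κ, ha, rfl⟩ := zoneOf_reg hZ e0
    exact ⟨rfl, zreg_ok C _ h3.le ha, rfl, Or.inl ⟨g, e, rfl, a, κ, ha, rfl, zP_rep C⟩⟩
  | PT g b =>
    obtain ⟨e1, e0, h3, -⟩ := hd
    subst e1
    obtain ⟨a, κ, ha, rfl⟩ := zoneOf_reg hZ e0
    have e2 : (Reg.PT (pidx c g) (ep c b) g b).top C = b + Wd c b := by
      simp only [Reg.top, hWW]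
    refine ⟨e2, zreg_ok C _ ?_ ha, e2, Or.inr ⟨g, b, rfl, a, κ, ha, rfl, zPT_rep C (hP _) h3⟩⟩
    rw [e2]
    simp only [Reg.bot]
    omega
  | RS _ _ _ => exact hp.elim
  | R _ _ => exact hp.elim
  | RT _ _ => exact hp.elim
  | RTh _ _ => exact hp.elim

/-- (TRIV) against an `R` zone of `K'` -/
lemma farOK_triv {K K' : ℕ} (hc : 3 ≤ c) (hKK : K' + gth c K ≤ K) {d' : Desc}
    {r0 r1 r0' r1' : Reg}
    (hcard : ∀ Z', ZoneOf C r0' r1' Z' → Z'.S.card ≤ 2 ^ ((d'.hi c - d'.lo) / 2))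
    (hd' : IsDesc c K' d' r0' r1') (hR' : d'.IsR)
    (hok : ∀ Z, ZoneOf C r0 r1 Z → Zone.Ok Z) (hal : r1.top C ≤ d'.hi c) (hK' : d'.hi c ≤ K')
    (x : ℕ) (hx : r1.top C - d'.lo ≤ x) (hxD : (10 * CC c + 5) * x ≤ 10 * CC c * (K - K')) :
    FarOK C c K K' r0 r1 r0' r1' := by
  have htop := desc_top (C := C) hd' hR'
  have hC5 : 5 ≤ CC c := le_trans (by norm_num) (Nat.pow_le_pow_right (n := 2) (by norm_num) hc)
  refine ⟨1 * 2 ^ ((d'.hi c - d'.lo) / 2), ?_, ?_⟩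
  · intro n Z Z' hZ hZ'
    have h1 := zoneOf_top hZ
    have h2 := zoneOf_top hZ'
    rw [one_mul]
    refine (zcons_le_right (hok Z hZ) (by rw [h1]; omega) (by rw [h2, htop]; exact hK')
      (by rw [h1, h2, htop]; exact hal)).trans ?_
    exact hcard Z' hZ'
  · refine num_triv (x := x) hC5 hKK (Nat.one_le_two_pow) hxD ?_
      (phiV_eq_of_le (by omega) (by omega) (by rw [htop]; exact hK'))
    rw [htop]
    have h2 : (((d'.hi c - d'.lo) / 2 : ℕ) : ℝ) ≤ ((d'.hi c - d'.lo : ℕ) : ℝ) / 2 := by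
      have := natdiv_le (d'.hi c - d'.lo) 2; push_cast at this; exact this
    have h3 : (r1.top C : ℝ) ≤ d'.hi c := by exact_mod_cast hal
    have h4 : (((d'.hi c - d'.lo : ℕ) : ℝ)) + r1.top C ≤ d'.hi c + x := by
      have : (d'.hi c - d'.lo) + r1.top C ≤ d'.hi c + x := by omega
      exact_mod_cast this
    rw [abs_of_nonpos (by linarith)]
    linarith

/-- the final numbers of the crossings -/
lemma farOK_cross {K K' : ℕ} (hc : 3 ≤ c) (hKK : K' + gth c K ≤ K) {d' : Desc}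
    {r0 r1 r0' r1' : Reg} (hd' : IsDesc c K' d' r0' r1') (hR' : d'.IsR)
    (hal : r1.top C ≤ d'.hi c) (hK' : d'.hi c ≤ K') {M : ℕ}
    (hM : 2 * M ≤ 2 ^ (gth c K / (4 * CC c)))
    (hxD : (10 * CC c + 9) * (r1.top C - d'.Ip c) ≤ 10 * CC c * (K - K'))
    (hN : ∀ n Z Z', ZoneOf C r0 r1 Z → ZoneOf C r0' r1' Z' →
      (zcons K K' n Z Z').card ≤ (2 * M) * 2 ^ ((d'.hi c - d'.Ip c) / 2)) :
    FarOK C c K K' r0 r1 r0' r1' := by
  have htop := desc_top (C := C) hd' hR'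
  have hC5 : 5 ≤ CC c := le_trans (by norm_num) (Nat.pow_le_pow_right (n := 2) (by norm_num) hc)
  refine ⟨(2 * M) * 2 ^ ((d'.hi c - d'.Ip c) / 2), hN, ?_⟩
  refine num_main (x := r1.top C - d'.Ip c) hC5 hKK hM hxD ?_
      (phiV_eq_of_le (by omega) (by omega) (by rw [htop]; exact hK'))
  rw [htop]
  have h2 : (((d'.hi c - d'.Ip c) / 2 : ℕ) : ℝ) ≤ ((d'.hi c - d'.Ip c : ℕ) : ℝ) / 2 := by
    have := natdiv_le (d'.hi c - d'.Ip c) 2; push_cast at this; exact this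
  have h3 : (r1.top C : ℝ) ≤ d'.hi c := by exact_mod_cast hal
  have h4 : (((d'.hi c - d'.Ip c : ℕ) : ℝ)) + r1.top C ≤ d'.hi c + (r1.top C - d'.Ip c : ℕ) := by
    have : (d'.hi c - d'.Ip c) + r1.top C ≤ d'.hi c + (r1.top C - d'.Ip c) := by omega
    exact_mod_cast this
  rw [abs_of_nonpos (by linarith)]
  linarith

end

variable {c : ℕ}

/-- position of a block -/
lemma block_facts {t : ℕ} (hc : 1 ≤ c) (H : OneK c 40 t) {d' : Desc}
    {r0' r1' : Reg} (hd' : IsDesc c t d' r0' r1') (hB' : IsB d') :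
    40 ≤ ep c d'.lo ∧ 0 < d'.lo ∧ Wd c d'.lo ∣ d'.lo ∧ d'.lo + Wd c d'.lo ≤ d'.hi c := by
  cases d' with
  | P g e => exact hB'.elim
  | PT g b => exact hB'.elim
  | R b v => exact hB'.elim
  | RS g b v =>
    obtain ⟨rfl, rfl, h1, h2, h3, h4, h5, h6⟩ := hd'
    obtain ⟨d1, d2, d3, -, d5, d6⟩ := desc_PT H hc h2 (by omega) h5
    have hb0 : 0 < b := by
      rcases Nat.eq_zero_or_pos b with h0 | h0
      · rw [h0] at d5
        have : ep c 0 = 0 := by simp [ep, lg, Helper29.E3.epf_zero]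
        omega
      · exact h0
    exact ⟨d5, hb0, d1, h3⟩
  | RT b v =>
    obtain ⟨rfl, h0, h1, h2, h3, h4⟩ := hd'
    obtain ⟨d1, d2, d3, -, d5, d6⟩ := desc_RT H hc h1 h2 h3 h4
    exact ⟨d5, d3, d1, d6⟩
  | RTh b v =>
    obtain ⟨rfl, h0, h1, h2, h3, h4⟩ := hd'
    obtain ⟨d1, d2, d3, -, d5, d6⟩ := desc_RTh H hc h1 h2 h3 h4
    exact ⟨d5, d3, d1, d6⟩

/-- a block inside a `P` run -/
lemma align_P {t : ℕ} (Hs : KidSize c t) {g e b' : ℕ} {r0 r1 : Reg}
    (hd : IsDesc c t (.P g e) r0 r1) (h1 : g ≤ b') (h2 : b' < e) (hdvd : Wd c b' ∣ b') :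
    b' + Wd c b' ≤ e ∧ (g = 0 ∨ ep c g = ep c b') := by
  obtain ⟨-, -, h3, h4, h5, h6⟩ := hd
  have hk := h5 b' h1 h2
  have hcut : KCut c t e := by
    right
    rcases h6 with h6 | h6
    · exact Or.inl h6
    · right
      rw [h5 (e-1) (by omega) (by omega)]
      exact fun h => h6 h.symm
  obtain ⟨h7, -⟩ := Hs.P g b' (by omega) hk e h2 h4 hcut (fun s hs hs' => h5 s (by omega) hs')
  refine ⟨low_add_le h2 hdvd ((Wd_dvd (by omega)).trans h7), ?_⟩
  exact Hs.ep g b' (by omega) (Or.inl hk)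

/-- a block inside a `PT` run -/
lemma align_PT {t : ℕ} (Hs : KidSize c t) {g b b' : ℕ} {r0 r1 : Reg}
    (hd : IsDesc c t (.PT g b) r0 r1) (h1 : g ≤ b') (h2 : b' < b + Wd c b)
    (hdvd : Wd c b' ∣ b') :
    (b' = b ∨ b' + Wd c b' ≤ b) ∧ (g = 0 ∨ ep c g = ep c b') := by
  obtain ⟨-, -, h3, h4, h5, h6, -⟩ := hd
  have hk := h6 b' h1 h2
  obtain ⟨h7, -⟩ := Hs.PT g b b' (by omega) hk
  refine ⟨?_, Hs.ep g b' (by omega) (Or.inr ⟨b, hk⟩)⟩
  rcases lt_trichotomy b' b with h | h | h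
  · right
    exact low_add_le h hdvd ((Wd_dvd h.le).trans h7)
  · exact Or.inl h
  · exfalso
    have := low_add_le h h7 ((Wd_dvd h.le).trans hdvd)
    omega

/-- arithmetic of the far motion -/
lemma triv_arith {C W x D l q : ℕ} (hC : 1 ≤ C) (hl : 50 * (C * W) < l) (hq : q < (l + 1) / 2)
    (hx : l ≤ q + (x + W)) (h : (10 * C + 9) * x ≤ 10 * C * D) :
    (10 * C + 5) * (x + W) ≤ 10 * C * D := by
  have h0 : W ≤ C * W := Nat.le_mul_of_pos_left _ hC
  have h1 : 24 * (C * W) ≤ x := by omega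
  have h2 : (10 * C + 5) * (x + W) = (10 * C + 5) * x + 10 * (C * W) + 5 * W := by ring
  have h3 : (10 * C + 9) * x = (10 * C + 5) * x + 4 * x := by ring
  omega

/-- for anchor `0` the known part is long -/
lemma long_of_zero {b : ℕ} (hc : 20 ≤ c) (he : 40 ≤ ep c b) (hb : 0 < b) :
    50 * (CC c * Wd c b) < b := by
  have hC : 2 ^ 20 ≤ CC c := Nat.pow_le_pow_right (by norm_num) hc
  have h1 : CC c ^ lg c b ≤ b := Nat.pow_log_le_self _ (by omega)
  have h2 : CC c ^ (ep c b + 3) ≤ CC c ^ lg c b := by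
    refine Nat.pow_le_pow_right (by omega) ?_
    have h5 := Helper29.E3.ep_le_lg c b
    have h6 := Helper29.E3.ep_add_eight (c := c) (s := b) (by omega)
    omega
  have h3 : CC c ^ (ep c b + 3) = CC c * CC c * (CC c * Wd c b) := by
    unfold Wd
    rw [pow_add]; ring
  have h4 : 0 < CC c * Wd c b := by
    have : 0 < Wd c b := pow_pos (by omega) _
    positivity
  have h5 : 50 * (CC c * Wd c b) < CC c * CC c * (CC c * Wd c b) := by
    refine Nat.mul_lt_mul_of_pos_right ?_ h4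
    nlinarith
  omega

/-- the two ways to bound the number of block digits, or the motion is long -/
lemma qpb2_or {C : Codes} {B : ℕ → ℕ} (hX : CrossCodes C c B) (hc : 20 ≤ c) {g b' l : ℕ}
    (he : 40 ≤ ep c b') (hb0 : 0 < b') (hg : g ≤ b') (hl : b' - g + Wd c b' ≤ l)
    (hep : g = 0 ∨ ep c g = ep c b') :
    QPB2 C (pidx c g) (ep c b') l (b' - g) (B (ep c b')) ∨
      (50 * (CC c * Wd c b') < l ∧ b' - g < (l + 1) / 2) := by
  have hq : b' - g + C.W (ep c b') ≤ l := by rw [hX.W]; exact hl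
  by_cases h1 : l ≤ 50 * (CC c * Wd c b')
  · left
    have hg0 : g ≠ 0 := by
      intro h0
      have := long_of_zero hc he hb0
      omega
    have hp : pidx c g = ep c b' + 1 := by
      unfold pidx
      rw [if_neg hg0]
      rcases hep with h | h
      · exact absurd h hg0
      · rw [h]
    rw [hp]
    refine qpb2_short hX he hq (h1.trans (le_of_eq ?_))
    unfold Wd
    rw [pow_succ]; ring
  · by_cases h2 : (l + 1) / 2 ≤ b' - g
    · exact Or.inl (qpb2_low hX he hq h2)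
    · exact Or.inr ⟨by omega, by omega⟩

/-- all zones are below the window -/
lemma hi_le {t : ℕ} {d : Desc} {r0 r1 : Reg} (hd : IsDesc c t d r0 r1) : d.hi c ≤ wb c t := by
  cases d with
  | P g e => exact hd.2.2.2.1
  | PT g b =>
    obtain ⟨-, -, -, h1, h2, -⟩ := hd
    exact h1.trans h2
  | RS g b v => exact hd.2.2.2.2.2.1
  | R b v => exact hd.2.2.2.1
  | RT b v => exact hd.2.2.2.1
  | RTh b v => exact hd.2.2.2.1

/-- number of values of an `R` zone -/
lemma card_R {C : Codes} {B : ℕ → ℕ} (hX : CrossCodes C c B) {t : ℕ} (hc : 1 ≤ c)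
    (Hs : OneK c 40 t) {d : Desc} {r0 r1 : Reg} (hd : IsDesc c t d r0 r1)
    (hR : d.IsR) {Z : Zone} (hZ : ZoneOf C r0 r1 Z) : Z.S.card ≤ 2 ^ ((d.hi c - d.lo) / 2) := by
  by_cases hB : IsB d
  · obtain ⟨h1, h2, h3, h4⟩ := block_facts hc Hs hd hB
    refine card_zone_R (hX.base _ h1) (hX.W _) hd hR ?_ hZ
    cases d <;> first | exact h4 | exact hB.elim
  · cases d with
    | P _ _ => exact hR.elim
    | PT _ _ => exact hR.elim
    | RS _ _ _ => exact absurd trivial hB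
    | RT _ _ => exact absurd trivial hB
    | RTh _ _ => exact absurd trivial hB
    | R b v =>
      obtain ⟨h1, h0, -⟩ := hd
      simp only [Desc.lo, Desc.hi]
      subst h1
      obtain ⟨a, κ, -, rfl⟩ := zoneOf_reg hZ h0
      refine (zreg_card_le C _ _ _).trans ?_
      simp only [Reg.V]
      rw [(hX.base 40 le_rfl).hY]
      exact RC.card_Yq_le _

/-- **(X1)** a `P` run of `K` against an `R` zone of `K'` which begins above the anchor and ends
above the run. -/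
theorem X1 {C : Codes} {B : ℕ → ℕ} (hX : CrossCodes C c B) (hc : 20 ≤ c) {K K' : ℕ}
    (hKK : K' + gth c K ≤ K)
    (hB : ∀ s ≤ K, 40 ≤ ep c s → 2 * B (ep c s) ≤ 2 ^ (gth c K / (4 * CC c)))
    (Hs : OneK c 40 K) (Hs' : OneK c 40 K') (hF : FarKin c K K')
    {d d' : Desc} {r0 r1 r0' r1' : Reg} (hd : IsDesc c K d r0 r1) (hd' : IsDesc c K' d' r0' r1')
    (hP : d.IsP) (hR' : d'.IsR) (hlo : d.lo ≤ d'.lo) (hhi : d.hi c ≤ d'.hi c) :
    FarOK C c K K' r0 r1 r0' r1' := by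
  have hC1 : 1 ≤ CC c := Nat.one_le_two_pow
  have hK' : d'.hi c ≤ K' := (hi_le hd').trans hF.wbK'
  have hF1 := hF.F1 d d' ⟨r0, r1, hd⟩ ⟨r0', r1', hd'⟩ hP hR' hlo
  have hcard : ∀ Z', ZoneOf C r0' r1' Z' → Z'.S.card ≤ 2 ^ ((d'.hi c - d'.lo) / 2) :=
    fun Z' hZ' => card_R hX (by omega) Hs' hd' hR' hZ'
  have hz : ∀ Z, ZoneOf C r0 r1 Z → _ := fun Z hZ => zone_P hX.W hX.P hd hP hZ
  have hok : ∀ Z, ZoneOf C r0 r1 Z → Zone.Ok Z := fun Z hZ => (hz Z hZ).2.1
  have htop : r1.top C = d.hi c := by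
    cases d with
    | P g e => obtain ⟨h, -⟩ := hd; rw [h]; rfl
    | PT g b =>
      obtain ⟨h, -⟩ := hd
      rw [h]
      show b + C.W (ep c b) = b + Wd c b
      rw [hX.W]; rfl
    | RS _ _ _ => exact hP.elim
    | R _ _ => exact hP.elim
    | RT _ _ => exact hP.elim
    | RTh _ _ => exact hP.elim
  have htriv : ∀ x, d.hi c - d'.lo ≤ x → (10 * CC c + 5) * x ≤ 10 * CC c * (K - K') →
      FarOK C c K K' r0 r1 r0' r1' := fun x h1 h2 =>
    farOK_triv (by omega) hKK hcard hd' hR' hok (by rw [htop]; exact hhi) hK' x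
      (by rw [htop]; exact h1) h2
  -- disjoint
  rcases Nat.lt_or_ge d'.lo (d.hi c) with hlt | hge
  swap
  · exact htriv 0 (by omega) (by simp)
  by_cases hBl : IsB d'
  swap
  · -- plain
    have hIp : d'.Ip c = d'.lo := by
      cases d' <;> first | rfl | exact hR'.elim | exact absurd trivial hBl
    rw [hIp] at hF1
    refine htriv _ le_rfl (le_trans (Nat.mul_le_mul_right _ (by omega)) hF1)
  obtain ⟨he, hb0, hdvd, hble⟩ := block_facts (by omega) Hs' hd' hBl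
  have hIp : d'.Ip c = d'.lo + Wd c d'.lo := by
    cases d' <;> first | rfl | exact hR'.elim | exact hBl.elim
  have hMB : 2 * B (ep c d'.lo) ≤ 2 ^ (gth c K / (4 * CC c)) := hB _ (by omega) he
  have hfin := fun hN => farOK_cross (C := C) (M := B (ep c d'.lo)) (r0 := r0) (r1 := r1)
    (show 3 ≤ c by omega) hKK hd' hR' (by rw [htop]; exact hhi) hK' hMB
    (by rw [htop]; exact hF1) hN
  rw [hIp] at hF1
  -- long motion
  have hlong : ∀ l, 50 * (CC c * Wd c d'.lo) < l → d'.lo - d.lo < (l + 1) / 2 →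
      l + d.lo ≤ d.hi c → d'.lo + Wd c d'.lo ≤ d.hi c → FarOK C c K K' r0 r1 r0' r1' := by
    intro l h1 h2 h3 h4
    refine htriv (d.hi c - (d'.lo + Wd c d'.lo) + Wd c d'.lo) (by omega) ?_
    exact triv_arith hC1 h1 h2 (by omega) hF1
  cases d with
  | RS _ _ _ => exact hP.elim
  | R _ _ => exact hP.elim
  | RT _ _ => exact hP.elim
  | RTh _ _ => exact hP.elim
  | P g e =>
    have e1 : (Desc.P g e).lo = g := rfl
    have e2 : (Desc.P g e).hi c = e := rfl
    rw [e1] at hlo hlong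
    rw [e2] at hhi hlt hlong htop
    obtain ⟨h1, h2⟩ := align_P Hs.S hd hlo hlt hdvd
    rcases qpb2_or hX hc (l := e - g) he hb0 hlo (by omega) h2 with h3 | ⟨h3, h4⟩
    · apply hfin
      intro n Z Z' hZ hZ'
      obtain ⟨q1, q2, -, ⟨g', e', q3, a, κ, ha, q4, q5⟩ | ⟨g', b, q3, -⟩⟩ := hz Z hZ
      swap
      · cases q3
      cases q3
      rw [e2] at q1
      refine cross_count hX.W (hX.base _ he) hd' hBl hZ' q5 q2 (by omega) ?_ (by omega)
        (by omega) h3 (by omega) hK'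
      rw [hX.W]
      show d'.lo - g + Wd c d'.lo ≤ e - g
      omega
    · exact hlong (e - g) h3 h4 (by omega) h1
  | PT g b =>
    have e1 : (Desc.PT g b).lo = g := rfl
    have e2 : (Desc.PT g b).hi c = b + Wd c b := rfl
    rw [e1] at hlo hlong
    rw [e2] at hhi hlt hlong htop
    obtain ⟨h1, h2⟩ := align_PT Hs.S hd hlo hlt hdvd
    rcases h1 with h1 | h1
    · -- same block
      apply hfin
      intro n Z Z' hZ hZ'
      obtain ⟨q1, q2, -, ⟨g', e', q3, -⟩ | ⟨g', b', q3, a, κ, ha, q4, q5⟩⟩ := hz Z hZ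
      · cases q3
      cases q3
      rw [← h1] at q4
      subst q4
      exact same_count hX he hd' hBl hZ' hlo ha (by rw [hX.W]; exact hble) (by omega) hK'
    · rcases qpb2_or hX hc (l := b - g) he hb0 hlo (by omega) h2 with h3 | ⟨h3, h4⟩
      · apply hfin
        intro n Z Z' hZ hZ'
        obtain ⟨q1, q2, -, ⟨g', e', q3, -⟩ | ⟨g', b', q3, a, κ, ha, q4, q5⟩⟩ := hz Z hZ
        · cases q3
        cases q3
        rw [e2] at q1
        refine cross_count hX.W (hX.base _ he) hd' hBl hZ' q5 q2 (by omega) ?_ (by omega)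
          (by omega) h3 (by omega) hK'
        rw [hX.W]
        show d'.lo - g + Wd c d'.lo ≤ b - g
        omega
      · exact hlong (b - g) h3 h4 (by omega) (by omega)


/-- the field `X1` of `FarCases4` -/
theorem far_X1 {D : Codes} {K K' : ℕ} (hyp : CaseHyp c D K K') (hX : CrossC c D) :
    ∀ d d' r0 r1 r0' r1', IsDesc c K d r0 r1 → IsDesc c K' d' r0' r1' → d.IsP → d'.IsR →
      d.lo ≤ d'.lo → d.hi c ≤ d'.hi c → FarOK D c K K' r0 r1 r0' r1' := by
  intro d d' r0 r1 r0' r1' hd hd' hP hR' hlo hhi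
  have hE := hyp.epo
  refine X1 (crossCodes_of hyp.c20 hyp.D hX) hyp.c20 hyp.g ?_ hyp.O hyp.O' hyp.F hd hd' hP hR'
    hlo hhi
  intro s hs he
  have := hB_of hyp.c20 (by omega) s hs he
  omega

end Pool.Agent.E3S.Cr
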