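import Mathlib
import Pool.Agent.Helper82.ETN.Num

/-!
# E-T (MP_12a1af_nt), phase 3: from dyadic blocks to all `x`, loss a power of the logarithm
-/

set_option autoImplicit false

open Finset Filter Topology

namespace Pool.Agent.Helper3.E3

open Pool.Agent.Helper82.ETN

lemma log2_le {K : ℕ} (hK : 1 ≤ K) : ((Nat.log 2 K + 1 : ℕ) : ℝ) ≤ 2 * (1 + Real.log K) := by
  have hKr : (1:ℝ) ≤ K := by exact_mod_cast hK
  have b1 : ((2 ^ Nat.log 2 K : ℕ) : ℝ) ≤ K := by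
    exact_mod_cast Nat.pow_log_le_self 2 (by omega)
  have b2 : (Nat.log 2 K : ℝ) * Real.log 2 ≤ Real.log K := by
    rw [← Real.log_pow]
    refine Real.log_le_log (by positivity) ?_
    push_cast at b1
    exact b1
  have b3 := Real.log_two_gt_d9
  have b4 : (0:ℝ) ≤ (Nat.log 2 K : ℝ) := Nat.cast_nonneg _
  have b5 : 0 ≤ Real.log (K:ℝ) := Real.log_nonneg hKr
  push_cast
  nlinarith

/-- the loss of a dyadic block is at most a power -/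
lemma ev_loss {b : ℕ} {f : ℕ → ℕ} {γ C0 e : ℝ} (hγ : 0 ≤ γ) (he : 0 < e)
    (hf : ∀ K : ℕ, 1 ≤ K → (f K : ℝ) ≤ C0 * (K:ℝ) ^ γ) :
    ∀ᶠ K : ℕ in atTop, ((b * (Nat.log 2 K + 1) ^ 3 + f K + (Nat.log 2 K + 1) + 8 : ℕ) : ℝ) ≤
      4 * (K:ℝ) ^ (γ + e) := by
  filter_upwards [ev_log_pow_le (b * 8) 3 e he, ev_const_le_rpow (max C0 8) e he,
    ev_log_pow_le 2 1 e he, eventually_ge_atTop 1] with K h1 h2 h3 hK
  have hKr : (1:ℝ) ≤ K := by exact_mod_cast hK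
  have hKp : (0:ℝ) < K := by linarith
  have hl := log2_le hK
  have hlog : 0 ≤ Real.log (K:ℝ) := Real.log_nonneg hKr
  have e1 : (K:ℝ) ^ e ≤ (K:ℝ) ^ (γ + e) :=
    Real.rpow_le_rpow_of_exponent_le hKr (by linarith)
  have e2 : ((b * (Nat.log 2 K + 1) ^ 3 : ℕ) : ℝ) ≤ (K:ℝ) ^ e := by
    refine le_trans ?_ h1
    have h4 : ((Nat.log 2 K + 1 : ℕ) : ℝ) ^ 3 ≤ (2 * (1 + Real.log K)) ^ 3 :=
      pow_le_pow_left₀ (Nat.cast_nonneg _) hl 3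
    have h5 : (1 + Real.log (K:ℝ)) ^ (3:ℝ) = (1 + Real.log (K:ℝ)) ^ 3 := by
      rw [show (3:ℝ) = ((3:ℕ):ℝ) by norm_num, Real.rpow_natCast]
    rw [h5]
    have h6 : (0:ℝ) ≤ b := Nat.cast_nonneg _
    calc ((b * (Nat.log 2 K + 1) ^ 3 : ℕ) : ℝ) = b * ((Nat.log 2 K + 1 : ℕ) : ℝ) ^ 3 := by
          push_cast; ring
      _ ≤ b * (2 * (1 + Real.log K)) ^ 3 := mul_le_mul_of_nonneg_left h4 h6
      _ = _ := by ring
  have e3 : (f K : ℝ) ≤ (K:ℝ) ^ (γ + e) := by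
    refine (hf K hK).trans ?_
    have h7 : (0:ℝ) ≤ (K:ℝ) ^ γ := Real.rpow_nonneg hKp.le _
    calc C0 * (K:ℝ) ^ γ ≤ (K:ℝ) ^ e * (K:ℝ) ^ γ :=
          mul_le_mul_of_nonneg_right ((le_max_left _ _).trans h2) h7
      _ = _ := by rw [← Real.rpow_add hKp, add_comm]
  have e4 : ((Nat.log 2 K + 1 : ℕ) : ℝ) ≤ (K:ℝ) ^ e := by
    rw [Real.rpow_one] at h3
    linarith
  have e5 : (8:ℝ) ≤ (K:ℝ) ^ e := (le_max_right _ _).trans h2
  push_cast at e2 e3 e4 ⊢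
  linarith

/-- **From dyadic blocks to all `x`.** -/
theorem thick_gen {A : Set ℕ} {K0 b : ℕ} {f : ℕ → ℕ} {γ C0 : ℝ} (hγ : 0 ≤ γ) (hγ1 : γ < 1)
    (hf : ∀ K : ℕ, 1 ≤ K → (f K : ℝ) ≤ C0 * (K:ℝ) ^ γ)
    (h : ∀ K, K0 ≤ K → 2 ^ (K / 2 - b * (Nat.log 2 K + 1) ^ 3 - f K) / (4 * K) - 1 ≤
      (A ∩ Set.Ico (2 ^ K) (2 ^ (K + 1))).ncard) {ε : ℝ} (hε : 0 < ε) :
    ∀ᶠ x : ℕ in atTop, √(x : ℝ) * Real.exp (-(Real.log x ^ (γ + ε))) ≤
      ((A ∩ Set.Iio x).ncard : ℝ) := by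
  set e : ℝ := min (ε / 2) ((1 - γ) / 2) with he
  have he0 : 0 < e := lt_min (by linarith) (by linarith)
  have he1 : e ≤ ε / 2 := min_le_left _ _
  have he2 : e ≤ (1 - γ) / 2 := min_le_right _ _
  have hlog2 : 0 < Real.log 2 := Real.log_pos one_lt_two
  have hc0 : 0 < Real.log 2 ^ (γ + ε) := Real.rpow_pos_of_pos hlog2 _
  -- the scale
  have hev : ∀ᶠ K : ℕ in atTop, ((b * (Nat.log 2 K + 1) ^ 3 + f K + (Nat.log 2 K + 1) + 8 : ℕ) : ℝ)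
      ≤ K / 2 ∧ ((b * (Nat.log 2 K + 1) ^ 3 + f K + (Nat.log 2 K + 1) + 8 : ℕ) : ℝ) ≤
        ((K:ℝ) * Real.log 2) ^ (γ + ε) ∧ K0 ≤ K ∧ 1 ≤ K := by
    filter_upwards [ev_loss (b := b) hγ he0 hf, ev_const_le_rpow 8 e he0,
      ev_const_le_rpow (4 / Real.log 2 ^ (γ + ε)) (ε / 2) (by linarith), eventually_ge_atTop K0,
      eventually_ge_atTop 1] with K h1 h2 h3 hK0 hK
    have hKr : (1:ℝ) ≤ K := by exact_mod_cast hK
    have hKp : (0:ℝ) < K := by linarith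
    have hp : (0:ℝ) ≤ (K:ℝ) ^ (γ + e) := Real.rpow_nonneg hKp.le _
    refine ⟨h1.trans ?_, h1.trans ?_, hK0, hK⟩
    · have e1 : (K:ℝ) ^ (γ + e) * (K:ℝ) ^ e ≤ K := by
        rw [← Real.rpow_add hKp]
        calc (K:ℝ) ^ (γ + e + e) ≤ (K:ℝ) ^ (1:ℝ) :=
              Real.rpow_le_rpow_of_exponent_le hKr (by linarith)
          _ = K := Real.rpow_one _
      nlinarith
    · rw [Real.mul_rpow hKp.le hlog2.le]
      rw [div_le_iff₀ hc0] at h3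
      have e2 : (K:ℝ) ^ (γ + ε) = (K:ℝ) ^ (γ + ε / 2) * (K:ℝ) ^ (ε / 2) := by
        rw [← Real.rpow_add hKp]
        congr 1
        ring
      have e3 : (K:ℝ) ^ (γ + e) ≤ (K:ℝ) ^ (γ + ε / 2) :=
        Real.rpow_le_rpow_of_exponent_le hKr (by linarith)
      rw [e2, mul_assoc]
      calc 4 * (K:ℝ) ^ (γ + e) = (K:ℝ) ^ (γ + e) * 4 := by ring
        _ ≤ (K:ℝ) ^ (γ + ε / 2) * ((K:ℝ) ^ (ε / 2) * Real.log 2 ^ (γ + ε)) :=
          mul_le_mul e3 h3 (by norm_num) (Real.rpow_nonneg hKp.le _)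
  obtain ⟨K1, hK1⟩ := hev.exists_forall_of_atTop
  filter_upwards [eventually_ge_atTop (2 ^ (K1 + 1))] with x hx
  have hx0 : x ≠ 0 := by
    have : 0 < 2 ^ (K1 + 1) := by positivity
    omega
  obtain ⟨K, hK⟩ : ∃ K, Nat.log 2 x = K + 1 := by
    have : K1 + 1 ≤ Nat.log 2 x := Nat.le_log_of_pow_le one_lt_two hx
    exact ⟨Nat.log 2 x - 1, by omega⟩
  have hKK1 : K1 ≤ K := by
    have : K1 + 1 ≤ Nat.log 2 x := Nat.le_log_of_pow_le one_lt_two hx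
    omega
  obtain ⟨h1, h2, h3, h4⟩ := hK1 K hKK1
  have hx1 : 2 ^ (K + 1) ≤ x := by rw [← hK]; exact Nat.pow_log_le_self 2 hx0
  have hx2 : x < 2 ^ (K + 2) := by
    have := Nat.lt_pow_succ_log_self one_lt_two x
    rwa [hK] at this
  set L := Nat.log 2 K with hL
  set M := b * (L + 1) ^ 3 + f K with hM
  have hMK : M + (L + 1) + 8 ≤ K / 2 := by
    have e1 : ((2 * (M + (L + 1) + 8) : ℕ) : ℝ) ≤ K := by
      push_cast at h1 ⊢
      linarith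
    have e2 : 2 * (M + (L + 1) + 8) ≤ K := by exact_mod_cast e1
    omega
  -- the block
  have hblk : 2 ^ (K / 2 - (M + (L + 1) + 4)) ≤ (A ∩ Set.Iio x).ncard := by
    have e1 := h K h3
    rw [← hL] at e1
    have e2 : K / 2 - b * (L + 1) ^ 3 - f K = (L + 3) + (K / 2 - (M + (L + 1) + 4) + 2) := by
      omega
    have e3 : K < 2 ^ (L + 1) := Nat.lt_pow_succ_log_self (by norm_num) K
    have e4 : 4 * K ≤ 2 ^ (L + 3) := by
      have : 2 ^ (L + 3) = 4 * 2 ^ (L + 1) := by ring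
      omega
    have e5 : 2 ^ (K / 2 - (M + (L + 1) + 4) + 2) ≤
        2 ^ (K / 2 - b * (L + 1) ^ 3 - f K) / (4 * K) := by
      rw [Nat.le_div_iff_mul_le (by omega), e2, mul_comm, pow_add 2 (L + 3)]
      exact Nat.mul_le_mul_right _ e4
    have e6 : 2 ^ (K / 2 - (M + (L + 1) + 4)) + 1 ≤ 2 ^ (K / 2 - (M + (L + 1) + 4) + 2) := by
      have : 1 ≤ 2 ^ (K / 2 - (M + (L + 1) + 4)) := Nat.one_le_two_pow
      rw [pow_add]
      omega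
    have e7 : (A ∩ Set.Ico (2 ^ K) (2 ^ (K + 1))).ncard ≤ (A ∩ Set.Iio x).ncard := by
      apply Set.ncard_le_ncard
      · intro y hy
        exact ⟨hy.1, lt_of_lt_of_le hy.2.2 hx1⟩
      · exact (Set.finite_Iio x).subset Set.inter_subset_right
    omega
  have hblk' : (2:ℝ) ^ ((K / 2 - (M + (L + 1) + 4) : ℕ) : ℝ) ≤ ((A ∩ Set.Iio x).ncard : ℝ) := by
    rw [Real.rpow_natCast]
    exact_mod_cast hblk
  refine le_trans ?_ hblk'
  have hxr : (x:ℝ) ≤ (2:ℝ) ^ ((K:ℝ) + 2) := by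
    have : (x:ℝ) ≤ ((2 ^ (K + 2) : ℕ) : ℝ) := by exact_mod_cast hx2.le
    refine this.trans (le_of_eq ?_)
    rw [show ((K:ℝ) + 2) = ((K + 2 : ℕ) : ℝ) by push_cast; ring, Real.rpow_natCast]
    push_cast
    ring
  have hsq : √(x:ℝ) ≤ (2:ℝ) ^ (((K:ℝ) + 2) / 2) := by
    rw [Real.sqrt_eq_rpow]
    calc (x:ℝ) ^ (1/2:ℝ) ≤ ((2:ℝ) ^ ((K:ℝ) + 2)) ^ (1/2:ℝ) :=
          Real.rpow_le_rpow (Nat.cast_nonneg _) hxr (by norm_num)
      _ = _ := by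
          rw [← Real.rpow_mul (by norm_num)]
          congr 1
          ring
  have hlogx : (K:ℝ) * Real.log 2 ≤ Real.log x := by
    have e1 : ((2 ^ (K + 1) : ℕ) : ℝ) ≤ x := by exact_mod_cast hx1
    have e2 : Real.log ((2 ^ (K + 1) : ℕ) : ℝ) ≤ Real.log x := Real.log_le_log (by positivity) e1
    push_cast at e2
    rw [Real.log_pow] at e2
    push_cast at e2
    nlinarith
  have hpow : ((K:ℝ) * Real.log 2) ^ (γ + ε) ≤ Real.log x ^ (γ + ε) :=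
    Real.rpow_le_rpow (by positivity) hlogx (by linarith)
  have hexp : Real.exp (-(Real.log x ^ (γ + ε))) ≤ (2:ℝ) ^ (-((M + (L + 1) + 8 : ℕ) : ℝ)) := by
    rw [Real.rpow_def_of_pos two_pos]
    apply Real.exp_le_exp.2
    have e1 : ((M + (L + 1) + 8 : ℕ) : ℝ) ≤ Real.log x ^ (γ + ε) := h2.trans hpow
    have e2 : Real.log 2 ≤ 1 := by
      have := Real.log_two_lt_d9
      linarith
    have e3 : (0:ℝ) ≤ ((M + (L + 1) + 8 : ℕ) : ℝ) := Nat.cast_nonneg _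
    nlinarith
  calc √(x : ℝ) * Real.exp (-(Real.log x ^ (γ + ε)))
      ≤ (2:ℝ) ^ (((K:ℝ) + 2) / 2) * (2:ℝ) ^ (-((M + (L + 1) + 8 : ℕ) : ℝ)) :=
        mul_le_mul hsq hexp (Real.exp_pos _).le (by positivity)
    _ = (2:ℝ) ^ (((K:ℝ) + 2) / 2 + -((M + (L + 1) + 8 : ℕ) : ℝ)) := by
        rw [← Real.rpow_add two_pos]
    _ ≤ (2:ℝ) ^ ((K / 2 - (M + (L + 1) + 4) : ℕ) : ℝ) := by
        refine Real.rpow_le_rpow_of_exponent_le (by norm_num) ?_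
        have e1 : K ≤ 2 * (K / 2) + 1 := by omega
        have e2 : (K:ℝ) ≤ 2 * ((K / 2 : ℕ) : ℝ) + 1 := by exact_mod_cast e1
        rw [Nat.cast_sub (by omega)]
        push_cast
        linarith

end Pool.Agent.Helper3.E3
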