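import Mathlib
import Pool.Agent.Helper29.E3.Inst
import Pool.Agent.Helper29.E3.Basic

/-!
# E-T (MP_12a1af_nt), phase 3: the rate `u / v` of the epoch function
-/

set_option autoImplicit false

namespace Pool.Agent.Helper3.E3

open Pool.Agent.Helper29.E3
open Pool.Agent.Helper29.ETK (CC lg)
open EpFn (epf)

/-- the epoch function has the rate `u / v` -/
structure UV [EpFn] (u v : ℕ) : Prop where
  v0 : 0 < v
  h1 : v ≤ 2 * u
  h2 : 3 * u ≤ 2 * v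
  lo : ∀ m, u * m ≤ v * (epf m + 17)
  hi : ∀ m, v * epf m ≤ u * m
  fth : ∀ m, v * (2 * epf m - ms (epf m)) ≤ (2 * u - v) * m
  frd : ∀ m, v * (ms (epf m) - epf m) ≤ (v - u) * m + 17 * v

theorem uv_ofUV {u v : ℕ} (hv : 0 < v) (h1 : v ≤ 2 * u) (h2 : 3 * u ≤ 2 * v) :
    @UV (ofUV hv h1 h2) u v :=
  @UV.mk (ofUV hv h1 h2) u v hv h1 h2 (uv_mul_le hv h1 h2) (uv_le_mul hv h1 h2)
    (uv_th hv h1 h2) (uv_rd hv h1 h2)

/-- powers, upper bound -/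
lemma rpow_of_pow_le {a b K p v : ℕ} (hv : 0 < v) (h : a ^ v ≤ b ^ v * K ^ p) :
    (a:ℝ) ≤ b * (K:ℝ) ^ ((p:ℝ) / v) := by
  have hvr : (0:ℝ) < v := by exact_mod_cast hv
  have h1 : ((a:ℝ) ^ v) ≤ (b:ℝ) ^ v * (K:ℝ) ^ p := by exact_mod_cast h
  have h2 : (a:ℝ) = ((a:ℝ) ^ v) ^ (1 / (v:ℝ)) := by
    rw [← Real.rpow_natCast, ← Real.rpow_mul (Nat.cast_nonneg _), mul_one_div_cancel hvr.ne',
      Real.rpow_one]
  have h3 : (b:ℝ) = ((b:ℝ) ^ v) ^ (1 / (v:ℝ)) := by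
    rw [← Real.rpow_natCast, ← Real.rpow_mul (Nat.cast_nonneg _), mul_one_div_cancel hvr.ne',
      Real.rpow_one]
  have h4 : (K:ℝ) ^ ((p:ℝ) / v) = ((K:ℝ) ^ p) ^ (1 / (v:ℝ)) := by
    rw [← Real.rpow_natCast (K:ℝ) p, ← Real.rpow_mul (Nat.cast_nonneg _)]
    congr 1
    ring
  rw [h2]
  calc ((a:ℝ) ^ v) ^ (1 / (v:ℝ)) ≤ ((b:ℝ) ^ v * (K:ℝ) ^ p) ^ (1 / (v:ℝ)) :=
        Real.rpow_le_rpow (by positivity) h1 (by positivity)
    _ = ((b:ℝ) ^ v) ^ (1 / (v:ℝ)) * ((K:ℝ) ^ p) ^ (1 / (v:ℝ)) :=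
        Real.mul_rpow (by positivity) (by positivity)
    _ = _ := by rw [← h3, ← h4]

/-- powers, lower bound -/
lemma rpow_of_le_pow {a K p v : ℕ} (hv : 0 < v) (h : K ^ p ≤ a ^ v) :
    (K:ℝ) ^ ((p:ℝ) / v) ≤ a := by
  have hvr : (0:ℝ) < v := by exact_mod_cast hv
  have h1 : ((K:ℝ) ^ p) ≤ (a:ℝ) ^ v := by exact_mod_cast h
  have h2 : (a:ℝ) = ((a:ℝ) ^ v) ^ (1 / (v:ℝ)) := by
    rw [← Real.rpow_natCast, ← Real.rpow_mul (Nat.cast_nonneg _), mul_one_div_cancel hvr.ne',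
      Real.rpow_one]
  have h4 : (K:ℝ) ^ ((p:ℝ) / v) = ((K:ℝ) ^ p) ^ (1 / (v:ℝ)) := by
    rw [← Real.rpow_natCast (K:ℝ) p, ← Real.rpow_mul (Nat.cast_nonneg _)]
    congr 1
    ring
  rw [h2, h4]
  exact Real.rpow_le_rpow (by positivity) h1 (by positivity)

section

variable [EpFn] {u v : ℕ}

lemma CC_pos' (c : ℕ) : 0 < CC c := by unfold CC; positivity

/-- the thinning is at most the power `2 u / v - 1` -/
lemma UV.th_le (H : UV u v) {c K : ℕ} (hK : 1 ≤ K) :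
    (th c (ep c K) : ℝ) ≤ (K:ℝ) ^ (2 * ((u:ℝ) / v) - 1) := by
  have hv := H.v0
  have hvr : (0:ℝ) < v := by exact_mod_cast hv
  have h1 : th c (ep c K) ^ v ≤ 1 ^ v * K ^ (2 * u - v) := by
    rw [one_pow, one_mul]
    unfold th ep
    rw [← pow_mul, mul_comm]
    calc CC c ^ (v * (2 * epf (lg c K) - ms (epf (lg c K)))) ≤ CC c ^ ((2 * u - v) * lg c K) :=
          Nat.pow_le_pow_right (CC_pos' c) (H.fth _)
      _ = (CC c ^ lg c K) ^ (2 * u - v) := by rw [← pow_mul, mul_comm]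
      _ ≤ K ^ (2 * u - v) := Nat.pow_le_pow_left (Pool.Agent.Helper29.ETK.lg_le c (by omega)) _
  have h2 := rpow_of_pow_le hv h1
  rw [Nat.cast_one, one_mul, Nat.cast_sub H.h1] at h2
  refine h2.trans (le_of_eq ?_)
  congr 1
  push_cast
  field_simp

/-- the multiplicity is at most the power `1 - u / v` -/
lemma UV.rd_le (H : UV u v) {c K : ℕ} (hK : 1 ≤ K) :
    ((CC c ^ (ms (ep c K) - ep c K) : ℕ) : ℝ) ≤ (CC c : ℝ) ^ 17 * (K:ℝ) ^ (1 - (u:ℝ) / v) := by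
  have hv := H.v0
  have hvr : (0:ℝ) < v := by exact_mod_cast hv
  have huv : u ≤ v := by have := H.h2; omega
  have h1 : (CC c ^ (ms (ep c K) - ep c K)) ^ v ≤ (CC c ^ 17) ^ v * K ^ (v - u) := by
    unfold ep
    rw [← pow_mul, mul_comm]
    calc CC c ^ (v * (ms (epf (lg c K)) - epf (lg c K))) ≤
          CC c ^ ((v - u) * lg c K + 17 * v) := Nat.pow_le_pow_right (CC_pos' c) (H.frd _)
      _ = (CC c ^ 17) ^ v * (CC c ^ lg c K) ^ (v - u) := by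
          rw [← pow_mul, ← pow_mul, ← pow_add]
          congr 1
          ring
      _ ≤ _ := Nat.mul_le_mul_left _
          (Nat.pow_le_pow_left (Pool.Agent.Helper29.ETK.lg_le c (by omega)) _)
  have h2 := rpow_of_pow_le hv h1
  rw [Nat.cast_sub huv, Nat.cast_pow (CC c) 17] at h2
  refine h2.trans (le_of_eq ?_)
  congr 2
  field_simp

end

end Pool.Agent.Helper3.E3
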