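import Mathlib
import Pool.Agent.Helper82.ETN.Num

/-!
# E-T (MP_12a1af_nt), phase 3: the failure sum, threshold at least a power
-/

set_option autoImplicit false

open Finset Filter Topology

namespace Pool.Agent.Helper3.E3

open Pool.Agent.ETP
open Pool.Agent.Helper82.ETN

/-- the threshold tends to infinity -/
lemma ev_g' {K1 : ℕ} {e : ℝ} {g : ℕ → ℕ} (he : 0 < e)
    (hn1 : ∃ c : ℝ, 0 < c ∧ ∀ K : ℕ, K1 ≤ K → (K:ℝ) ^ e ≤ c * g K) (a : ℝ) :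
    ∀ᶠ K : ℕ in atTop, a ≤ (g K : ℝ) := by
  obtain ⟨c, hc, h⟩ := hn1
  filter_upwards [ev_const_le_rpow (a * c) e he, eventually_ge_atTop K1] with K hK hK1
  have h1 := h K hK1
  have h2 : a * c ≤ (g K : ℝ) * c := by linarith
  exact le_of_mul_le_mul_right h2 hc

theorem failA_ev' {C K1 : ℕ} {e : ℝ} {g mm : ℕ → ℕ} {ε : ℕ → ℝ} (he : 0 < e) (hC1 : 1 ≤ C)
    (hgpos : ∀ K, K1 ≤ K → 1 ≤ g K)
    (hn1 : ∃ c : ℝ, 0 < c ∧ ∀ K : ℕ, K1 ≤ K → (K:ℝ) ^ e ≤ c * g K)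
    (hn3 : ∃ c : ℝ, 0 < c ∧ ∀ K : ℕ, K1 ≤ K → (mm K : ℝ) ≤ c * (K:ℝ) ^ 2)
    (h4 : ∀ K, K1 ≤ K → 0 ≤ ε K ∧ ε K ≤ (1/2) ^ (g K / (8 * C))) :
    ∀ᶠ K : ℕ in atTop, failA mm (sN C g) ε K ≤ (1/2) ^ (K+2) := by
  have hn1' := hn1
  obtain ⟨c1, hc1, h1⟩ := hn1
  obtain ⟨c3, hc3, h3⟩ := hn3
  have hC : (1:ℝ) ≤ C := by exact_mod_cast hC1
  have hC0 : (0:ℝ) < C := by linarith
  filter_upwards [ev_g' he hn1' (320 * C), eventually_ge_atTop K1, eventually_ge_atTop 8,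
    ev_pow_le_two_pow (2 * (c3 ^ 2 * (67 * C) ^ 2)) (1 / (24 * C * c1)) 7 e
      (by positivity) he] with K hg hK1 hK8 hexp
  have hgp := hgpos K hK1
  have hg0 : (0:ℝ) < g K := by exact_mod_cast hgp
  have hK0 : (8:ℝ) ≤ K := by exact_mod_cast hK8
  have hs1 := sN_ge C g K hgp
  have hs2 := sN_le C g K hgp
  have hge1 : (1:ℝ) ≤ g K := by exact_mod_cast hgp
  refine failA_le (fun K => g K / (12 * C)) (h4 K hK1).1 ?_ ?_
  · -- (b)
    have hε := (h4 K hK1).2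
    have hε0 := (h4 K hK1).1
    have hs3 : (2 * (sN C g K : ℝ) + 1) ≤ 67 * C * K := by
      have e1 : (32 * C * K : ℝ) / g K ≤ 32 * C * K := by
        rw [div_le_iff₀ hg0]
        have : 0 ≤ (32 * C * K : ℝ) := by positivity
        nlinarith
      nlinarith
    have hpoly : (K : ℝ) * (mm K : ℝ) ^ 2 * (2 * (sN C g K : ℝ) + 1) ^ 2 ≤
        c3 ^ 2 * (67 * C) ^ 2 * (K:ℝ) ^ (7:ℝ) := by
      have e1 : (mm K : ℝ) ^ 2 ≤ (c3 * (K:ℝ) ^ 2) ^ 2 :=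
        pow_le_pow_left₀ (by positivity) (h3 K hK1) 2
      have e2 : (2 * (sN C g K : ℝ) + 1) ^ 2 ≤ (67 * C * K) ^ 2 :=
        pow_le_pow_left₀ (by positivity) hs3 2
      have e3 : (K:ℝ) ^ (7:ℝ) = (K:ℝ) ^ 7 := by
        rw [show (7:ℝ) = ((7:ℕ):ℝ) by norm_num, Real.rpow_natCast]
      rw [e3]
      calc (K : ℝ) * (mm K : ℝ) ^ 2 * (2 * (sN C g K : ℝ) + 1) ^ 2
          ≤ (K : ℝ) * (c3 * (K:ℝ) ^ 2) ^ 2 * (67 * C * K) ^ 2 := by gcongr
        _ = c3 ^ 2 * (67 * C) ^ 2 * (K:ℝ) ^ 7 := by ring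
    have hgl : 1 / (24 * C * c1) * (K:ℝ) ^ e ≤ (g K : ℝ) / (24 * C) := by
      have := h1 K hK1
      rw [div_mul_eq_mul_div, one_mul, div_le_div_iff₀ (by positivity) (by positivity)]
      nlinarith
    have hexp2 : 2 * (c3 ^ 2 * (67 * C) ^ 2) * (K:ℝ) ^ (7:ℝ) ≤ (2:ℝ) ^ ((g K : ℝ) / (24 * C)) :=
      hexp.trans (Real.rpow_le_rpow_of_exponent_le (by norm_num) hgl)
    have hfl : (g K : ℝ) / (24 * C) + ((g K / (12 * C) : ℕ) : ℝ) ≤ ((g K / (8 * C) : ℕ) : ℝ) + 1 := by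
      have f1 : ((g K / (12 * C) : ℕ) : ℝ) ≤ (g K : ℝ) / ((12 * C : ℕ) : ℝ) := Nat.cast_div_le
      have f2 : (g K : ℝ) / ((8 * C : ℕ) : ℝ) < ((g K / (8 * C) : ℕ) : ℝ) + 1 := by
        have : (0:ℝ) < ((8 * C : ℕ) : ℝ) := by
          have := hC1
          exact_mod_cast (by omega : 0 < 8 * C)
        rw [div_lt_iff₀ this]
        have h5 := Nat.lt_div_mul_add (a := g K) (b := 8 * C) (by have := hC1; omega)
        have h6 : (g K : ℝ) < ((g K / (8 * C) * (8 * C) + 8 * C : ℕ) : ℝ) := by exact_mod_cast h5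
        push_cast at h6 ⊢
        linarith
      push_cast at f1 f2
      have f3 : (g K : ℝ) / (24 * C) + (g K : ℝ) / (12 * C) = (g K : ℝ) / (8 * C) := by
        field_simp
        norm_num
      linarith
    calc (K : ℝ) * (mm K : ℝ) ^ 2 * (2 * (sN C g K : ℝ) + 1) ^ 2 * ε K
        ≤ (c3 ^ 2 * (67 * C) ^ 2 * (K:ℝ) ^ (7:ℝ)) * (1/2) ^ (g K / (8 * C)) :=
          mul_le_mul hpoly hε hε0 (by positivity)
      _ ≤ ((2:ℝ) ^ ((g K : ℝ) / (24 * C)) / 2) * (1/2) ^ (g K / (8 * C)) := by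
          refine mul_le_mul_of_nonneg_right ?_ (by positivity)
          linarith
      _ ≤ (1/2) ^ (g K / (12 * C)) := by
          have g1 : ((1:ℝ)/2) ^ (g K / (8 * C)) = (2:ℝ) ^ (-(((g K / (8 * C) : ℕ)) : ℝ)) := by
            rw [Real.rpow_neg (by norm_num), Real.rpow_natCast, one_div, inv_pow]
          have g2 : ((1:ℝ)/2) ^ (g K / (12 * C)) = (2:ℝ) ^ (-(((g K / (12 * C) : ℕ)) : ℝ)) := by
            rw [Real.rpow_neg (by norm_num), Real.rpow_natCast, one_div, inv_pow]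
          have g3 : (2:ℝ) ^ ((g K : ℝ) / (24 * C)) / 2 = (2:ℝ) ^ ((g K : ℝ) / (24 * C) - 1) := by
            rw [Real.rpow_sub (by norm_num), Real.rpow_one]
          rw [g1, g2, g3, ← Real.rpow_add (by norm_num)]
          refine Real.rpow_le_rpow_of_exponent_le (by norm_num) ?_
          linarith
  · -- (a)
    have f1 : (g K : ℝ) / (12 * C) - 1 ≤ ((g K / (12 * C) : ℕ) : ℝ) := by
      have : (0:ℝ) < 12 * C := by linarith
      rw [sub_le_iff_le_add, div_le_iff₀ this]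
      have h5 := Nat.lt_div_mul_add (a := g K) (b := 12 * C) (by have := hC1; omega)
      have h6 : (g K : ℝ) < ((g K / (12 * C) * (12 * C) + 12 * C : ℕ) : ℝ) := by exact_mod_cast h5
      push_cast at h6 ⊢
      linarith
    have f2 : (0:ℝ) ≤ (g K : ℝ) / (12 * C) - 1 := by
      rw [sub_nonneg, le_div_iff₀ (by positivity)]
      linarith
    have f3 : ((g K : ℝ) / (12 * C) - 1) * ((32 * C * K : ℝ) / g K) ≤
        ((g K / (12 * C) : ℕ) : ℝ) * (sN C g K : ℝ) :=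
      mul_le_mul f1 hs1 (by positivity) (by positivity)
    have f4 : ((g K : ℝ) / (12 * C) - 1) * ((32 * C * K : ℝ) / g K) =
        32 * K / 12 - 32 * C * K / g K := by
      field_simp
    have f5 : (32 * C * K : ℝ) / g K ≤ K / 10 := by
      rw [div_le_div_iff₀ hg0 (by norm_num)]
      nlinarith
    have f6 : ((2 * K + 4 : ℕ) : ℝ) ≤ ((g K / (12 * C) * sN C g K : ℕ) : ℝ) := by
      push_cast at f3 ⊢
      nlinarith
    exact_mod_cast f6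

end Pool.Agent.Helper3.E3
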